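import Pool.Agent.N184.WM.Outer

/-!
# Outer weights: the geometric statement
-/

namespace Pool.Agent.N184.WM

universe u v

open Module Submodule Pool.Agent.Y143 Pool.Agent.X302.MW

variable {Ω : Type u} [Field Ω] [CharZero Ω] {Γ : Type} {n q : ℕ}

section

variable (X : SemistableModel.{u, v} Ω Γ n q)

/-- The cohomology of the generic fibre is finite-dimensional. -/
lemma finite_W (k : ℕ) (w : ℤ) : Module.Finite Ω (X.W k w) := by
  obtain ⟨b, hb⟩ := X.W_bot k
  have key : ∀ t : ℕ, ∀ w : ℤ, w ≤ b + t → Module.Finite Ω (X.W k w) := by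
    intro t
    induction t with
    | zero =>
      intro w hw
      have h1 : X.W k w = ⊥ := by
        rw [eq_bot_iff, ← hb]
        exact X.W_mono k (by simpa using hw)
      rw [h1]
      infer_instance
    | succ t ih =>
      intro w hw
      have hfin := ih (w - 1) (by push_cast at hw; omega)
      -- a linear section of the specialization
      let P : Submodule Ω (X.V k × X.C) := X.sp k w
      let K : Submodule Ω (X.V k × X.C) := P ⊓ LinearMap.ker (LinearMap.snd Ω (X.V k) X.C)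
      -- `P` maps onto `W w`, with the kernel of the second projection contained in `W (w - 1)`
      let f : P →ₗ[Ω] X.C := (LinearMap.snd Ω (X.V k) X.C).domRestrict P
      have hker : Module.Finite Ω (LinearMap.ker f) := by
        have hg : ∀ p : LinearMap.ker f, (p : P).1.1 ∈ X.W k (w - 1) := by
          intro p
          have h1 : (p : P).1.2 = 0 := p.2
          apply (X.sp_ker k w _ _ (show ((p : P).1.1, (p : P).1.2) ∈ X.sp k w from (p : P).2)).2
          rw [h1]
          exact zero_mem _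
        let g : LinearMap.ker f →ₗ[Ω] X.W k (w - 1) :=
          LinearMap.codRestrict _ ((LinearMap.fst Ω (X.V k) X.C) ∘ₗ P.subtype ∘ₗ
            (LinearMap.ker f).subtype) hg
        apply Module.Finite.of_injective g
        intro p p' hpp
        have h1 : (p : P).1.1 = (p' : P).1.1 := congrArg Subtype.val hpp
        have h2 : (p : P).1.2 = 0 := p.2
        have h3 : (p' : P).1.2 = 0 := p'.2
        apply Subtype.ext
        apply Subtype.ext
        exact Prod.ext h1 (h2.trans h3.symm)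
      have hP : Module.Finite Ω P := by
        have : Module.Finite Ω (LinearMap.range f) := inferInstance
        have : Module.Finite Ω (P ⧸ LinearMap.ker f) :=
          Module.Finite.equiv (LinearMap.quotKerEquivRange f).symm
        exact Module.Finite.of_submodule_quotient (LinearMap.ker f)
      have hs : ∀ p : P, p.1.1 ∈ X.W k w := fun p => (X.sp_mem k w _ _ p.2).1
      let g : P →ₗ[Ω] X.W k w :=
        LinearMap.codRestrict _ ((LinearMap.fst Ω (X.V k) X.C) ∘ₗ P.subtype) hs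
      apply Module.Finite.of_surjective g
      rintro ⟨v, hv⟩
      obtain ⟨x, hx⟩ := X.sp_left k w v hv
      exact ⟨⟨(v, x), hx⟩, rfl⟩
  exact key (w - b).toNat w (by have := Int.self_le_toNat (w - b); omega)

lemma finite_V (k : ℕ) : Module.Finite Ω (X.V k) := by
  obtain ⟨b, hb⟩ := X.W_top k
  have h1 := finite_W X k b
  rw [hb] at h1
  exact Module.Finite.equiv (Submodule.topEquiv (R := Ω) (M := X.V k))

end

section

variable (X : SemistableModel.{u, v} Ω Γ n q)

/-- The weight filtration on `H^k`, from the bijectivity of some powers of the monodromy on the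
`E_2` term. -/
lemma isOuter_of (k f : ℕ)
    (hinj : ∀ a : ℕ, f + 1 ≤ a → NInj X.diff X.tot a ((k : ℤ) - n))
    (hsurj : ∀ a : ℕ, f + 1 ≤ a → NSurj X.diff X.tot a ((k : ℤ) - n)) :
    IsOuter (X.N k) (fun a => X.W k ((k : ℤ) + a)) f := by
  have hbd : ∀ (a : ℤ), Bd X.diff X.tot a ((k : ℤ) - n) = X.coboundaries a (k - a) := by
    intro a
    rw [X.bd_eq]
    congr 1
    ring
  have hzc : ∀ (a : ℤ), Zc X.diff X.tot a ((k : ℤ) - n) = X.cocycles a (k - a) := by
    intro a
    rw [X.zc_eq]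
    congr 1
    ring
  refine ⟨fun a b hab => X.W_mono k (by omega), ?_, ?_, ?_, ?_, ?_⟩
  · obtain ⟨w, hw⟩ := X.W_bot k
    refine ⟨w - k, ?_⟩
    show X.W k ((k : ℤ) + (w - k)) = ⊥
    rw [show (k : ℤ) + (w - k) = w by ring, hw]
  · obtain ⟨w, hw⟩ := X.W_top k
    refine ⟨w - k, ?_⟩
    show X.W k ((k : ℤ) + (w - k)) = ⊤
    rw [show (k : ℤ) + (w - k) = w by ring, hw]
  · intro a v hv
    obtain ⟨x, hx⟩ := X.sp_left k _ v hv
    exact X.W_cast (by ring) (X.sp_mem k _ _ _ (X.sp_N k _ _ _ hx)).1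
  · intro a v ha hv hN
    obtain ⟨x, hx⟩ := X.sp_left k _ v hv
    have h1 := X.N_pow_sp hx a le_rfl
    have h2 := (X.sp_ker k _ _ _ h1).1 (X.W_cast (by ring) hN)
    have h3 := (X.sp_mem k _ _ _ hx).2
    rw [show (k : ℤ) - ((k : ℤ) + a - 2 * a) = a by ring,
      show (k : ℤ) + a - 2 * a = k - a by ring, ← hbd] at h2
    have h4 : x ∈ Zc X.diff X.tot (-a) ((k : ℤ) - n) := by
      rw [hzc]
      rwa [show (k : ℤ) - (k + a) = -a by ring, show (k : ℤ) + a = k - -a by ring] at h3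
    have h5 := hinj a ha ⟨h4, h2⟩
    rw [hbd] at h5
    have h6 := (X.sp_ker k _ _ _ hx).2 (by
      rwa [show (k : ℤ) - (k + a) = -a by ring, show (k : ℤ) + a = k - -a by ring])
    exact X.W_cast (by ring) h6
  · intro a v ha hv
    obtain ⟨y, hy⟩ := X.sp_left k _ v hv
    have h1 := (X.sp_mem k _ _ _ hy).2
    rw [show (k : ℤ) - (k + -a) = a by ring, show (k : ℤ) + -a = k - a by ring, ← hzc] at h1
    obtain ⟨x, hx, b, hb, hxb⟩ := Submodule.mem_sup.1 (hsurj a ha h1)
    rw [hzc] at hx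
    obtain ⟨v', hv'⟩ := X.sp_right k ((k : ℤ) + a) x (by
      rwa [show (k : ℤ) - (k + a) = -a by ring, show (k : ℤ) + a = k - -a by ring])
    refine ⟨v', (X.sp_mem k _ _ _ hv').1, ?_⟩
    have h2 := X.N_pow_sp hv' a le_rfl
    have h3 : (v - (X.N k ^ a) v', b) ∈ X.sp k ((k : ℤ) + -a) := by
      have h4 := Submodule.sub_mem _ hy
        (X.sp_cast (show (k : ℤ) + a - 2 * a = k + -a by ring) h2)
      have h5 : b = y - x := by rw [← hxb]; abel
      rw [h5]
      exact h4
    have h6 := (X.sp_ker k _ _ _ h3).2 (by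
      rw [show (k : ℤ) - (k + -a) = a by ring, show (k : ℤ) + -a = k - a by ring, ← hbd]
      exact hb)
    exact X.W_cast (by ring) h6

lemma act_W (k : ℕ) (g : Γ) (w : ℤ) (v : X.V k) (hv : v ∈ X.W k w) : X.actV k g v ∈ X.W k w := by
  obtain ⟨x, hx⟩ := X.sp_left k w v hv
  exact (X.sp_mem k _ _ _ (X.sp_act k _ v x g hx)).1

/-- Weights on the graded pieces of the weight filtration. -/
lemma weil_W (k : ℕ) (w : ℤ) (α : Ω) (v : X.V k) (hv : v ∈ X.W k w) (hv' : v ∉ X.W k (w - 1))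
    (hα : X.actV k X.frob v - α • v ∈ X.W k (w - 1)) : IsWeilNumber q w α := by
  obtain ⟨x, hx⟩ := X.sp_left k _ v hv
  have h1 := (X.sp_mem k _ _ _ hx).2
  have h2 : x ∉ X.coboundaries (k - w) w := fun hc => hv' ((X.sp_ker k _ _ _ hx).2 hc)
  have h3 : (X.actV k X.frob v - α • v, X.actC (k - w) X.frob x - α • x) ∈ X.sp k w :=
    Submodule.sub_mem _ (X.sp_act k _ v x X.frob hx) (Submodule.smul_mem _ α hx)
  have h5 : X.actC (k - w) X.frob x - α • x ∈ X.coboundaries (k - w) w :=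
    (X.sp_ker k _ _ _ h3).1 hα
  obtain ⟨y, hy, hy0, hyα⟩ := exists_eigen (S := X.actC (k - w) X.frob)
    (X.bd_le_zc _ _) (fun x hx => X.actC_bd _ _ _ hx) h1 h2 h5
  exact X.weil_E₁ hy.1 hy0 hyα

end

section

variable [IsAlgClosed Ω] (X : Degeneration.{u, v} Ω Γ n q)

/-- For `e ≥ f + 1`, where `min (k, 2 n - k) ≤ f + w₀ + 1`, the map `N ^ e` is an isomorphism between
the graded pieces of weight `k + e` and `k - e` of `H^k`. -/
theorem isOuter (A : DivisorClasses X.toSpecialFibre) (k f w₀ : ℕ)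
    (hf : (k ≤ f + w₀ + 1) ∨ (2 * n ≤ k + (f + w₀ + 1)))
    (hA : ∀ (a w : ℕ) (χ : Γ → Ω), 2 ≤ w → w ≤ w₀ → a + 1 + w ≤ k → a + 1 + w + k ≤ 2 * n →
      ControlledAt A a w χ) :
    IsOuter (X.N k) (fun a => X.W k ((k : ℤ) + a)) f := by
  have hA' : ∀ (a w : ℕ) (χ : Γ → Ω), 2 ≤ w → a + 1 + w + ((k : ℤ) - n).natAbs ≤ n →
      (w : ℤ) ≤ n + ((w₀ : ℤ) - n) → ControlledAt A a w χ := by
    intro a w χ h1 h2 h3
    apply hA a w χ h1 <;> omega
  apply isOuter_of X.toSemistableModel k f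
  · intro a ha
    refine nInj_totD X A _ _ hA' a (by omega) _ (by rw [Int.abs_eq_natAbs]) ?_
    rw [Int.abs_eq_natAbs]
    omega
  · intro a ha
    refine nSurj_totD X A _ _ hA' a (by omega) _ (by rw [Int.abs_eq_natAbs]) ?_
    rw [Int.abs_eq_natAbs]
    omega

/-- **Outer weights.** -/
theorem outer (A : DivisorClasses X.toSpecialFibre) (k w₀ : ℕ)
    (hA : ∀ (a w : ℕ) (χ : Γ → Ω), 2 ≤ w → w ≤ w₀ → a + 1 + w ≤ k → a + 1 + w + k ≤ 2 * n →
      ControlledAt A a w χ)
    (hN : ∀ v, X.N k (X.actV k X.frob v) = (q : Ω) • X.actV k X.frob (X.N k v))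
    (M : ℤ → Submodule Ω (X.V k)) (hM : IsMonodromyFiltration (X.N k) M) (s : ℤ)
    (hs : (k : ℤ) - w₀ - 1 ≤ |s| ∨ 2 * (n : ℤ) - k - w₀ - 1 ≤ |s|) :
    (∀ x ∈ M s, X.actV k X.frob x ∈ M s) ∧
    ∀ (α : Ω) (x : X.V k), x ∈ M s → x ∉ M (s - 1) → X.actV k X.frob x - α • x ∈ M (s - 1) →
      IsWeilNumber q (k + s) α := by
  have hfin := finite_V X.toSemistableModel k
  have hO := isOuter X A k s.natAbs w₀ (by
    rw [Int.abs_eq_natAbs] at hs
    omega) hA
  refine outer_weights hO hM X.q_ne (k := k) (fun a x hx => act_W X.toSemistableModel k _ _ x hx)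
    hN ?_ (by rw [Int.abs_eq_natAbs])
  intro a α x hx hx' hα
  exact weil_W X.toSemistableModel k _ α x hx (by rwa [show (k : ℤ) + a - 1 = k + (a - 1) by ring])
    (by rwa [show (k : ℤ) + a - 1 = k + (a - 1) by ring])

end

end Pool.Agent.N184.WM
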