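import Pool.Agent.N184.WM.SlopeDefs

/-!
# Valuations of determinants
-/

namespace Pool.Agent.N184.WM

open Module Submodule

section

variable {Ω : Type*} [Field Ω] {V : Type*} [AddCommGroup V] [Module Ω V]

/-- The operator induced on `U' / U`. -/
noncomputable def quo (T : Module.End Ω V) (U U' : Submodule Ω V) (hU : ∀ x ∈ U, T x ∈ U)
    (hU' : ∀ x ∈ U', T x ∈ U') : Module.End Ω (U' ⧸ U.submoduleOf U') :=
  (U.submoduleOf U').mapQ (U.submoduleOf U') (T.restrict hU') (fun x hx => hU x hx)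

lemma quo_mk (T : Module.End Ω V) (U U' : Submodule Ω V) (hU : ∀ x ∈ U, T x ∈ U)
    (hU' : ∀ x ∈ U', T x ∈ U') (x : U') :
    quo T U U' hU hU' ((U.submoduleOf U').mkQ x) = (U.submoduleOf U').mkQ (T.restrict hU' x) := rfl

lemma det_equiv {V' : Type*} [AddCommGroup V'] [Module Ω V'] {T : Module.End Ω V}
    {T' : Module.End Ω V'} (e : V ≃ₗ[Ω] V') (h : ∀ x, e (T x) = T' (e x)) :
    LinearMap.det T = LinearMap.det T' := by
  rw [← LinearMap.det_conj T e]
  congr 1
  ext y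
  simp [h]

/-- The determinant on `U'` is the product of those on `U` and on `U' / U`. -/
lemma det_restrict_eq [FiniteDimensional Ω V] (T : Module.End Ω V) {U U' : Submodule Ω V}
    (h : U ≤ U') (hU : ∀ x ∈ U, T x ∈ U) (hU' : ∀ x ∈ U', T x ∈ U') :
    LinearMap.det (T.restrict hU') =
      LinearMap.det (T.restrict hU) * LinearMap.det (quo T U U' hU hU') := by
  have h1 := LinearMap.det_eq_det_mul_det (U.submoduleOf U') (T.restrict hU')
    (fun x hx => hU x hx)
  rw [h1]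
  congr 1
  exact det_equiv (Submodule.submoduleOfEquivOfLe h) (fun x => rfl)

lemma finrank_quo [FiniteDimensional Ω V] {U U' : Submodule Ω V} (h : U ≤ U') :
    finrank Ω (U' ⧸ U.submoduleOf U') + finrank Ω U = finrank Ω U' := by
  have h1 := Submodule.finrank_quotient_add_finrank (U.submoduleOf U')
  rw [(Submodule.submoduleOfEquivOfLe h).finrank_eq] at h1
  exact h1

/-- Subquotients related by a graph have the same determinant. -/
lemma det_quo_of_graph {C : Type*} [AddCommGroup C] [Module Ω C] (T : Module.End Ω V)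
    (S : Module.End Ω C) (P : Submodule Ω (V × C)) {U U' : Submodule Ω V} {Z B : Submodule Ω C}
    (hU : ∀ x ∈ U, T x ∈ U) (hU' : ∀ x ∈ U', T x ∈ U') (hB : ∀ x ∈ B, S x ∈ B)
    (hZ : ∀ x ∈ Z, S x ∈ Z) (hP : ∀ p ∈ P, p.1 ∈ U' ∧ p.2 ∈ Z)
    (hl : ∀ v ∈ U', ∃ x, (v, x) ∈ P) (hr : ∀ x ∈ Z, ∃ v, (v, x) ∈ P)
    (hk : ∀ p ∈ P, p.1 ∈ U ↔ p.2 ∈ B) (hT : ∀ p ∈ P, (T p.1, S p.2) ∈ P) :
    ∃ e : (U' ⧸ U.submoduleOf U') ≃ₗ[Ω] (Z ⧸ B.submoduleOf Z),
      ∀ x, e (quo T U U' hU hU' x) = quo S B Z hB hZ (e x) := by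
  let a : P →ₗ[Ω] (U' ⧸ U.submoduleOf U') := (U.submoduleOf U').mkQ ∘ₗ
    LinearMap.codRestrict U' (LinearMap.fst Ω V C ∘ₗ P.subtype) (fun p => (hP p p.2).1)
  let b : P →ₗ[Ω] (Z ⧸ B.submoduleOf Z) := (B.submoduleOf Z).mkQ ∘ₗ
    LinearMap.codRestrict Z (LinearMap.snd Ω V C ∘ₗ P.subtype) (fun p => (hP p p.2).2)
  have ha : Function.Surjective a := by
    intro y
    obtain ⟨⟨v, hv⟩, rfl⟩ := Submodule.mkQ_surjective _ y
    obtain ⟨x, hx⟩ := hl v hv
    exact ⟨⟨(v, x), hx⟩, rfl⟩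
  have hb : Function.Surjective b := by
    intro y
    obtain ⟨⟨x, hx⟩, rfl⟩ := Submodule.mkQ_surjective _ y
    obtain ⟨v, hv⟩ := hr x hx
    exact ⟨⟨(v, x), hv⟩, rfl⟩
  have hker : LinearMap.ker a = LinearMap.ker b := by
    ext p
    have h1 : p ∈ LinearMap.ker a ↔ (p : V × C).1 ∈ U := by
      rw [LinearMap.mem_ker]
      show (U.submoduleOf U').mkQ _ = 0 ↔ _
      rw [Submodule.mkQ_apply, Submodule.Quotient.mk_eq_zero]
      rfl
    have h2 : p ∈ LinearMap.ker b ↔ (p : V × C).2 ∈ B := by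
      rw [LinearMap.mem_ker]
      show (B.submoduleOf Z).mkQ _ = 0 ↔ _
      rw [Submodule.mkQ_apply, Submodule.Quotient.mk_eq_zero]
      rfl
    rw [h1, h2]
    exact hk p p.2
  let e := (a.quotKerEquivOfSurjective ha).symm ≪≫ₗ (Submodule.quotEquivOfEq _ _ hker) ≪≫ₗ
    (b.quotKerEquivOfSurjective hb)
  have he : ∀ p, e (a p) = b p := by
    intro p
    show (b.quotKerEquivOfSurjective hb) ((Submodule.quotEquivOfEq _ _ hker)
      ((a.quotKerEquivOfSurjective ha).symm (a p))) = b p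
    rw [LinearMap.quotKerEquivOfSurjective_symm_apply, Submodule.quotEquivOfEq_mk,
      LinearMap.quotKerEquivOfSurjective_apply_mk]
  refine ⟨e, fun x => ?_⟩
  obtain ⟨p, rfl⟩ := ha x
  have h1 : quo T U U' hU hU' (a p) = a ⟨_, hT p p.2⟩ := rfl
  have h2 : quo S B Z hB hZ (b p) = b ⟨_, hT p p.2⟩ := rfl
  rw [h1, he, he, h2]

/-- Adding an eigenvector. -/
lemma det_quo_line [FiniteDimensional Ω V] (T : Module.End Ω V) {U : Submodule Ω V}
    (hU : ∀ x ∈ U, T x ∈ U) {x : V} (hx : x ∉ U) {α : Ω} (h : T x - α • x ∈ U)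
    (hU' : ∀ y ∈ U ⊔ Submodule.span Ω {x}, T y ∈ U ⊔ Submodule.span Ω {x}) :
    finrank Ω (U ⊔ Submodule.span Ω {x} : Submodule Ω V) = finrank Ω U + 1 ∧
      LinearMap.det (quo T U (U ⊔ Submodule.span Ω {x}) hU hU') = α := by
  have hle : U ≤ U ⊔ Submodule.span Ω {x} := le_sup_left
  have hdis : Disjoint U (Submodule.span Ω {x}) := by
    rw [Submodule.disjoint_span_singleton' (by rintro rfl; exact hx (zero_mem _))]
    exact hx
  have hx0 : x ≠ 0 := by rintro rfl; exact hx (zero_mem _)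
  have h1 : finrank Ω (U ⊔ Submodule.span Ω {x} : Submodule Ω V) = finrank Ω U + 1 := by
    have := Submodule.finrank_sup_add_finrank_inf_eq U (Submodule.span Ω {x})
    rw [hdis.eq_bot, finrank_bot, finrank_span_singleton hx0] at this
    omega
  refine ⟨h1, ?_⟩
  have h2 := finrank_quo hle
  have h3 : quo T U (U ⊔ Submodule.span Ω {x}) hU hU' = α • LinearMap.id := by
    apply LinearMap.ext
    intro y
    obtain ⟨⟨v, hv⟩, rfl⟩ := Submodule.mkQ_surjective _ y
    rw [quo_mk, LinearMap.smul_apply, LinearMap.id_apply, ← map_smul, ← sub_eq_zero, ← map_sub,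
      Submodule.mkQ_apply, Submodule.Quotient.mk_eq_zero]
    show T v - α • v ∈ U
    obtain ⟨u, hu, w, hw, rfl⟩ := Submodule.mem_sup.1 hv
    obtain ⟨c, rfl⟩ := Submodule.mem_span_singleton.1 hw
    have e : T (u + c • x) - α • (u + c • x) = (T u - α • u) + c • (T x - α • x) := by
      rw [map_add, map_smul, smul_add, smul_sub, smul_comm α c x]
      abel
    rw [e]
    exact U.add_mem (U.sub_mem (hU u hu) (U.smul_mem _ hu)) (U.smul_mem _ h)
  rw [h3, LinearMap.det_smul, LinearMap.det_id, mul_one]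
  have h4 : finrank Ω (↥(U ⊔ Submodule.span Ω {x}) ⧸ U.submoduleOf (U ⊔ Submodule.span Ω {x})) = 1 := by
    omega
  rw [h4, pow_one]

/-- A similitude of a nondegenerate form. -/
lemma det_sq_of_form [FiniteDimensional Ω V] (T : Module.End Ω V) (B : V →ₗ[Ω] V →ₗ[Ω] Ω)
    (hB : ∀ x, (∀ y, B x y = 0) → x = 0) {c : Ω} (h : ∀ x y, B (T x) (T y) = c * B x y) :
    LinearMap.det T ^ 2 = c ^ finrank Ω V := by
  have hinj : Function.Injective B := by
    rw [← LinearMap.ker_eq_bot, LinearMap.ker_eq_bot']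
    intro x hx
    exact hB x (fun y => by rw [hx]; rfl)
  let e : V ≃ₗ[Ω] Dual Ω V := LinearEquiv.ofInjectiveOfFinrankEq B hinj
    Subspace.dual_finrank_eq.symm
  have he : ∀ x, e x = B x := fun x => rfl
  have h1 : (e.symm.toLinearMap ∘ₗ T.dualMap ∘ₗ e.toLinearMap) ∘ₗ T = c • LinearMap.id := by
    apply LinearMap.ext
    intro x
    apply e.injective
    rw [LinearMap.comp_apply, LinearMap.comp_apply, LinearMap.comp_apply, LinearEquiv.coe_coe,
      LinearEquiv.coe_coe, LinearEquiv.apply_symm_apply, LinearMap.smul_apply, LinearMap.id_apply,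
      map_smul]
    apply LinearMap.ext
    intro y
    rw [he, he, LinearMap.dualMap_apply, h, LinearMap.smul_apply, smul_eq_mul]
  have h2 := congrArg LinearMap.det h1
  rw [LinearMap.det_comp, LinearMap.det_smul, LinearMap.det_id, mul_one] at h2
  have h3 : LinearMap.det (e.symm.toLinearMap ∘ₗ T.dualMap ∘ₗ e.toLinearMap) =
      LinearMap.det T := by
    have h4 := LinearMap.det_conj (T.dualMap) e.symm
    rw [LinearEquiv.symm_symm] at h4
    rw [h4, LinearMap.det_dualMap]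
  rw [h3] at h2
  rw [pow_two, h2]

end

section val

variable {Ω : Type*} [Field Ω]

namespace IsValFor

variable {q : ℕ} {R : ValuationSubring Ω} {val : Ω → ℝ} (h : IsValFor q R val)
include h

lemma one : val 1 = 0 := by
  have := h.mul 1 1 one_ne_zero one_ne_zero
  rw [mul_one] at this
  linarith

lemma inv {α : Ω} (hα : α ≠ 0) : val α⁻¹ = - val α := by
  have := h.mul α α⁻¹ hα (inv_ne_zero hα)
  rw [mul_inv_cancel₀ hα, h.one] at this
  linarith

lemma pow {α : Ω} (hα : α ≠ 0) (n : ℕ) : val (α ^ n) = n * val α := by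
  induction n with
  | zero => simp [h.one]
  | succ n ih =>
    rw [pow_succ, h.mul _ _ (pow_ne_zero _ hα) hα, ih]
    push_cast
    ring

lemma multiset_prod {s : Multiset Ω} (hs : ∀ x ∈ s, x ≠ 0 ∧ val x = 0) : val s.prod = 0 := by
  induction s using Multiset.induction_on with
  | empty => simp [h.one]
  | cons a s ih =>
    rw [Multiset.prod_cons]
    have h1 := hs a (Multiset.mem_cons_self a s)
    have h2 : ∀ x ∈ s, x ≠ 0 ∧ val x = 0 := fun x hx => hs x (Multiset.mem_cons_of_mem hx)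
    have h3 : s.prod ≠ 0 := Multiset.prod_ne_zero (fun h0 => (h2 0 h0).1 rfl)
    rw [h.mul _ _ h1.1 h3, h1.2, ih h2, add_zero]

lemma det_eq_zero [IsAlgClosed Ω] {V : Type*} [AddCommGroup V] [Module Ω V]
    [FiniteDimensional Ω V] (T : Module.End Ω V)
    (hT : ∀ (β : Ω) (x : V), x ≠ 0 → T x = β • x → β ≠ 0 ∧ val β = 0) :
    LinearMap.det T ≠ 0 ∧ val (LinearMap.det T) = 0 := by
  have h1 : LinearMap.det T = T.charpoly.roots.prod :=
    Module.End.det_eq_prod_roots_charpoly_of_splits (IsAlgClosed.splits _)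
  have h2 : ∀ x ∈ T.charpoly.roots, x ≠ 0 ∧ val x = 0 := by
    intro β hβ
    have h3 : T.charpoly.IsRoot β := (Polynomial.mem_roots (LinearMap.charpoly_monic T).ne_zero).1 hβ
    have h4 : T.HasEigenvalue β := by
      rw [Module.End.hasEigenvalue_iff_isRoot_charpoly]
      exact h3
    obtain ⟨x, hx⟩ := h4.exists_hasEigenvector
    exact hT β x hx.2 hx.apply_eq_smul
  rw [h1]
  exact ⟨Multiset.prod_ne_zero (fun h0 => (h2 0 h0).1 rfl), h.multiset_prod h2⟩

end IsValFor

end val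

end Pool.Agent.N184.WM
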