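import Pool.Agent.N184.WM.Core
import Pool.Agent.Y143.Mon
import Pool.Agent.Y143.WeilNum

/-!
# The outer part of the monodromy filtration
-/

namespace Pool.Agent.N184.WM

universe u v

open Module Submodule Pool.Agent.Y143 Pool.Agent.X302.MW

section linalg

variable {Ω : Type*} [Field Ω] [CharZero Ω] {V : Type*} [AddCommGroup V] [Module Ω V]

/-- An eigenvalue on `Z / B` is an eigenvalue on `Z / B₀`. -/
lemma exists_eigen_rel [FiniteDimensional Ω V] {S : Module.End Ω V} {α : Ω} {Z B B₀ : Submodule Ω V}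
    (h0 : B₀ ≤ B) (hBZ : B ≤ Z) (hB₀ : ∀ x ∈ B₀, S x ∈ B₀) (hB : ∀ x ∈ B, S x ∈ B)
    {x : V} (hx : x ∈ Z) (hxB : x ∉ B) (h : S x - α • x ∈ B) :
    ∃ y ∈ Z, y ∉ B₀ ∧ S y - α • y ∈ B₀ := by
  let T : Module.End Ω (V ⧸ B₀) := B₀.mapQ B₀ S hB₀
  have hT : ∀ v, T (B₀.mkQ v) = B₀.mkQ (S v) := fun v => rfl
  have hmem : ∀ (P : Submodule Ω V), B₀ ≤ P → ∀ v, B₀.mkQ v ∈ P.map B₀.mkQ ↔ v ∈ P := by
    intro P hP v
    rw [← Submodule.mem_comap, Submodule.comap_map_mkQ, sup_eq_right.2 hP]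
  obtain ⟨y, hy, hy0, hyα⟩ := exists_eigen (S := T) (α := α) (Z := Z.map B₀.mkQ)
    (B := B.map B₀.mkQ) (Submodule.map_mono hBZ) (by
      rintro _ ⟨b, hb, rfl⟩
      exact ⟨S b, hB b hb, rfl⟩) (x := B₀.mkQ x) ⟨x, hx, rfl⟩
    (fun hc => hxB ((hmem B h0 x).1 hc)) (by
      rw [hT, ← map_smul, ← map_sub]
      exact ⟨_, h, rfl⟩)
  obtain ⟨z, hz, rfl⟩ := hy
  refine ⟨z, hz, fun hc => hy0 ?_, ?_⟩
  · rwa [Submodule.mkQ_apply, Submodule.Quotient.mk_eq_zero]
  · rw [hT, ← map_smul, ← sub_eq_zero, ← map_sub, Submodule.mkQ_apply,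
      Submodule.Quotient.mk_eq_zero] at hyα
    exact hyα

/-- A finite increasing filtration with `N W_w ⊆ W_(w - 2)` (indexed so that the centre is `0`)
such that `N ^ e` induces isomorphisms of graded pieces for `e ≥ f + 1`. -/
structure IsOuter (N : Module.End Ω V) (W : ℤ → Submodule Ω V) (f : ℕ) : Prop where
  mono : Monotone W
  bot : ∃ a, W a = ⊥
  top : ∃ a, W a = ⊤
  map : ∀ a x, x ∈ W a → N x ∈ W (a - 2)
  inj : ∀ (a : ℕ) x, f + 1 ≤ a → x ∈ W a → (N ^ a) x ∈ W (-a - 1) → x ∈ W (a - 1)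
  surj : ∀ (a : ℕ) y, f + 1 ≤ a → y ∈ W (-a) → ∃ x ∈ W a, y - (N ^ a) x ∈ W (-a - 1)

namespace IsOuter

variable {N : Module.End Ω V} {W : ℤ → Submodule Ω V} {f : ℕ} (h : IsOuter N W f)
include h

lemma pow_map (j : ℕ) (a : ℤ) (x : V) (hx : x ∈ W a) : (N ^ j) x ∈ W (a - 2 * j) := by
  induction j with
  | zero => simpa using hx
  | succ j ih =>
    rw [pow_succ', Module.End.mul_apply]
    have := h.map _ _ ih
    rwa [show a - 2 * (j : ℤ) - 2 = a - 2 * ((j + 1 : ℕ) : ℤ) by push_cast; ring] at this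

lemma nilp : ∃ r : ℕ, N ^ r = 0 := by
  obtain ⟨a, ha⟩ := h.bot
  obtain ⟨b, hb⟩ := h.top
  refine ⟨(b - a).toNat, ?_⟩
  ext x
  have h1 := h.pow_map (b - a).toNat b x (by rw [hb]; trivial)
  have h2 : (N ^ (b - a).toNat) x ∈ W a := by
    rcases le_total a b with hab | hab
    · exact h.mono (by have := Int.self_le_toNat (b - a); omega) h1
    · exact h.mono (by have := Int.self_le_toNat (b - a); omega) h1
  rw [ha, Submodule.mem_bot] at h2
  rw [h2]
  rfl

lemma surj_exact (a : ℕ) (hfa : f + 1 ≤ a) (y : V) (hy : y ∈ W (-a)) :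
    ∃ x ∈ W a, (N ^ a) x = y := by
  have key : ∀ t : ℕ, ∃ x ∈ W a, y - (N ^ a) x ∈ W (-a - t) := by
    intro t
    induction t with
    | zero => exact ⟨0, zero_mem _, by simpa using hy⟩
    | succ t ih =>
      obtain ⟨x, hx, hx'⟩ := ih
      have e1 : (-(a : ℤ) - t) = -((a + t : ℕ) : ℤ) := by push_cast; ring
      rw [e1] at hx'
      obtain ⟨z, hz, hz'⟩ := h.surj (a + t) _ (by omega) hx'
      refine ⟨x + (N ^ t) z, ?_, ?_⟩
      · apply add_mem hx
        have := h.pow_map t _ z hz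
        exact h.mono (by push_cast; omega) this
      · rw [map_add, ← Module.End.mul_apply, ← pow_add, ← sub_sub]
        exact h.mono (by push_cast; omega) hz'
  obtain ⟨b, hb⟩ := h.bot
  obtain ⟨x, hx, hx'⟩ := key (-(b : ℤ) - a).toNat
  refine ⟨x, hx, ?_⟩
  have h1 : y - (N ^ a) x ∈ W b := by
    apply h.mono _ hx'
    have := Int.self_le_toNat (-(b : ℤ) - a)
    omega
  rw [hb, Submodule.mem_bot] at h1
  exact (sub_eq_zero.1 h1).symm

lemma ker_le (e : ℕ) (he : f + 1 ≤ e) {y : V} (h0 : (N ^ e) y = 0) : y ∈ W ((e : ℤ) - 1) := by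
  obtain ⟨b, hb⟩ := h.top
  have key : ∀ t : ℕ, y ∈ W ((e : ℤ) - 1 + t) → y ∈ W ((e : ℤ) - 1) := by
    intro t
    induction t with
    | zero => intro h1; simpa using h1
    | succ t ih =>
      intro h1
      apply ih
      have e1 : ((e : ℤ) - 1 + ((t + 1 : ℕ) : ℤ)) = ((e + t : ℕ) : ℤ) := by push_cast; ring
      rw [e1] at h1
      have := h.inj (e + t) y (by omega) h1 (by
        have : (N ^ (e + t)) y = 0 := by
          rw [show e + t = t + e by ring, pow_add, Module.End.mul_apply, h0, map_zero]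
        rw [this]
        exact zero_mem _)
      rwa [show ((e + t : ℕ) : ℤ) - 1 = (e : ℤ) - 1 + t by push_cast; ring] at this
  apply key (b - ((e : ℤ) - 1)).toNat
  have h1 : y ∈ W b := by rw [hb]; trivial
  apply h.mono _ h1
  have := Int.self_le_toNat (b - ((e : ℤ) - 1))
  omega

variable {M : ℤ → Submodule Ω V} (hM : IsMonodromyFiltration N M)
include hM

omit h in
lemma mon_eq (hN : ∃ r : ℕ, N ^ r = 0) (s : ℤ) : M s = monFil N s := by
  have h1 := isMonodromyFiltration_monFil hN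
  apply le_antisymm
  · intro x hx
    exact IsMonodromyFiltrationOn.functorial hM.on h1.on LinearMap.id (fun _ _ => trivial)
      (c := 1) one_ne_zero (fun x _ => by simp) s hx
  · intro x hx
    exact IsMonodromyFiltrationOn.functorial h1.on hM.on LinearMap.id (fun _ _ => trivial)
      (c := 1) one_ne_zero (fun x _ => by simp) s hx

/-- The small steps of the monodromy filtration are contained in those of `W`. -/
lemma mon_le (s : ℕ) (hs : f ≤ s) : M (-s) ≤ W (-s) := by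
  rw [mon_eq hM h.nilp]
  apply monFil_le
  intro j e y hj he hy
  have h3 := h.ker_le e (by omega) hy
  have h4 := h.pow_map j _ _ h3
  rwa [show (e : ℤ) - 1 - 2 * (j : ℤ) = -s by omega] at h4

/-- The large steps of the monodromy filtration contain those of `W`. -/
lemma le_mon (s : ℕ) (hs : f ≤ s) : W ((s : ℤ) - 1) ≤ M ((s : ℤ) - 1) := by
  obtain ⟨b, hb⟩ := hM.top
  have key : ∀ (t : ℕ) (s : ℕ), f ≤ s → b ≤ (s : ℤ) - 1 + t → W ((s : ℤ) - 1) ≤ M ((s : ℤ) - 1) := by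
    intro t
    induction t with
    | zero =>
      intro s _ hbs x _
      apply hM.mono (show b ≤ (s : ℤ) - 1 by simpa using hbs)
      rw [hb]
      trivial
    | succ t ih =>
      intro s hs hbs x hx
      have ih1 := ih (s + 1) (by omega) (by push_cast at hbs ⊢; omega)
      have ih2 := ih (s + 2) (by omega) (by push_cast at hbs ⊢; omega)
      have hxM : x ∈ M s := by
        have := ih1 (h.mono (by push_cast; omega) hx)
        rwa [show ((s + 1 : ℕ) : ℤ) - 1 = s by push_cast; ring] at this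
      have h1 := h.pow_map s _ x hx
      rw [show (s : ℤ) - 1 - 2 * s = -((s + 1 : ℕ) : ℤ) by push_cast; ring] at h1
      obtain ⟨z, hz, hz'⟩ := h.surj_exact (s + 1) (by omega) _ h1
      have hzM : z ∈ M ((s : ℤ) + 1) := by
        have := ih2 (h.mono (by push_cast; omega) hz)
        rwa [show ((s + 2 : ℕ) : ℤ) - 1 = s + 1 by push_cast; ring] at this
      have hNz : N z ∈ M ((s : ℤ) - 1) := by
        have := hM.map _ _ hzM
        rwa [show (s : ℤ) + 1 - 2 = s - 1 by ring] at this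
      have h2 : (N ^ s) (x - N z) = 0 := by
        rw [map_sub, ← Module.End.mul_apply (N ^ s) N, ← pow_succ, hz', sub_self]
      have h3 : x - N z ∈ M ((s : ℤ) - 1) := by
        apply hM.inj s _ (sub_mem hxM (hM.mono (by omega) hNz))
        rw [h2]
        exact zero_mem _
      have := add_mem h3 hNz
      rwa [sub_add_cancel] at this
  apply key (b - ((s : ℤ) - 1)).toNat s hs
  have := Int.self_le_toNat (b - ((s : ℤ) - 1))
  omega

end IsOuter

variable {N : Module.End Ω V} {W M : ℤ → Submodule Ω V} {f : ℕ}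

/-- An eigenvalue on a subquotient `Z / B` with `B ⊇ W a` is an eigenvalue on a graded piece
`W w / W (w - 1)` with `w > a`. -/
lemma eigen_above [FiniteDimensional Ω V] (hmono : Monotone W) (htop : ∃ a, W a = ⊤)
    {Φ : Module.End Ω V} (hΦW : ∀ a x, x ∈ W a → Φ x ∈ W a) {Z B : Submodule Ω V} (hBZ : B ≤ Z)
    (hB : ∀ x ∈ B, Φ x ∈ B) {a : ℤ} (ha : W a ≤ B) {x : V} (hx : x ∈ Z) (hxB : x ∉ B) {α : Ω}
    (hα : Φ x - α • x ∈ B) :
    ∃ w, a < w ∧ ∃ y ∈ W w, y ∉ W (w - 1) ∧ Φ y - α • y ∈ W (w - 1) := by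
  obtain ⟨y, -, hy0, hyα⟩ := exists_eigen_rel ha hBZ (hΦW a) hB hx hxB hα
  obtain ⟨b, hb⟩ := htop
  have key : ∀ t : ℕ, y ∈ W (a + t) → ∃ w, a < w ∧ ∃ y ∈ W w, y ∉ W (w - 1) ∧
      Φ y - α • y ∈ W (w - 1) := by
    intro t
    induction t with
    | zero => intro h1; exact absurd (by simpa using h1) hy0
    | succ t ih =>
      intro h1
      by_cases h2 : y ∈ W (a + t)
      · exact ih h2
      · refine ⟨a + ((t + 1 : ℕ) : ℤ), by push_cast; omega, y, h1, ?_, ?_⟩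
        · rwa [show a + ((t + 1 : ℕ) : ℤ) - 1 = a + t by push_cast; ring]
        · exact hmono (by push_cast; omega) hyα
  apply key (b - a).toNat
  apply hmono (show b ≤ a + ((b - a).toNat : ℤ) by
    have := Int.self_le_toNat (b - a)
    omega)
  rw [hb]
  trivial

/-- An eigenvalue on a subquotient `Z / B` with `Z ⊆ W a` is an eigenvalue on a graded piece
`W w / W (w - 1)` with `w ≤ a`. -/
lemma eigen_below [FiniteDimensional Ω V] (hmono : Monotone W) (hbot : ∃ a, W a = ⊥)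
    {Φ : Module.End Ω V} {Z B : Submodule Ω V} (hBZ : B ≤ Z)
    (hB : ∀ x ∈ B, Φ x ∈ B) {a : ℤ} (ha : Z ≤ W a) {x : V} (hx : x ∈ Z) (hxB : x ∉ B) {α : Ω}
    (hα : Φ x - α • x ∈ B) :
    ∃ w, w ≤ a ∧ ∃ y ∈ W w, y ∉ W (w - 1) ∧ Φ y - α • y ∈ W (w - 1) := by
  obtain ⟨b, hb⟩ := hbot
  obtain ⟨y, hyZ, hy0, hyα⟩ := exists_eigen_rel (B₀ := ⊥) bot_le hBZ (by simp) hB hx hxB hα
  rw [Submodule.mem_bot] at hy0 hyα
  have hyα' : ∀ w, Φ y - α • y ∈ W w := fun w => by rw [hyα]; exact zero_mem _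
  have key : ∀ t : ℕ, y ∉ W (a - t) → ∃ w, w ≤ a ∧ ∃ y ∈ W w, y ∉ W (w - 1) ∧
      Φ y - α • y ∈ W (w - 1) := by
    intro t
    induction t with
    | zero => intro h1; exact absurd (ha hyZ) (by simpa using h1)
    | succ t ih =>
      intro h1
      by_cases h2 : y ∈ W (a - t)
      · refine ⟨a - t, by omega, y, h2, ?_, hyα' _⟩
        rwa [show a - ((t + 1 : ℕ) : ℤ) = a - t - 1 by push_cast; ring] at h1
      · exact ih h2
  apply key (a - b).toNat
  intro hc
  apply hy0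
  have h1 := hmono (show a - ((a - b).toNat : ℤ) ≤ b by
    have := Int.self_le_toNat (a - b)
    omega) hc
  rwa [hb, Submodule.mem_bot] at h1

/-- Weil numbers have only one weight, in a weak form. -/
lemma weil_squeeze {q : ℕ} (hq : q ≠ 0) {α : Ω} {w w' c : ℤ}
    (h : IsWeilNumber q w α) (h' : IsWeilNumber q w' α) (h1 : c ≤ w) (h2 : w' ≤ c) :
    IsWeilNumber q c α := by
  refine ⟨h.1, fun z hz => ?_⟩
  have e1 := h.2 z hz
  have e2 := h'.2 z hz
  have hq1 : (1 : ℝ) ≤ q := by exact_mod_cast Nat.one_le_iff_ne_zero.2 hq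
  apply le_antisymm
  · rw [e2]
    apply Real.rpow_le_rpow_of_exponent_le hq1
    have : (w' : ℝ) ≤ c := by exact_mod_cast h2
    linarith
  · rw [e1]
    apply Real.rpow_le_rpow_of_exponent_le hq1
    have : (c : ℝ) ≤ w := by exact_mod_cast h1
    linarith

/-- The outer graded pieces of the monodromy filtration have the expected weights. -/
theorem outer_weights [FiniteDimensional Ω V] (h : IsOuter N W f)
    (hM : IsMonodromyFiltration N M) {q : ℕ} (hq : q ≠ 0) {k : ℤ} {Φ : Module.End Ω V}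
    (hΦW : ∀ a x, x ∈ W a → Φ x ∈ W a) (hN : ∀ v, N (Φ v) = (q : Ω) • Φ (N v))
    (hweil : ∀ (a : ℤ) (α : Ω) (x : V), x ∈ W a → x ∉ W (a - 1) → Φ x - α • x ∈ W (a - 1) →
      IsWeilNumber q (k + a) α) {s : ℤ} (hs : (f : ℤ) ≤ |s|) :
    (∀ x ∈ M s, Φ x ∈ M s) ∧
    ∀ (α : Ω) (x : V), x ∈ M s → x ∉ M (s - 1) → Φ x - α • x ∈ M (s - 1) →
      IsWeilNumber q (k + s) α := by
  have hqΩ : (q : Ω) ≠ 0 := Nat.cast_ne_zero.2 hq
  have hΦM : ∀ (s : ℤ), ∀ x ∈ M s, Φ x ∈ M s := by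
    intro s x hx
    exact IsMonodromyFiltrationOn.functorial hM.on hM.on Φ (fun _ _ => trivial) (c := (q : Ω))
      hqΩ (fun x _ => hN x) s hx
  have hpow : ∀ (t : ℕ) (v : V), (N ^ t) (Φ v) = (q : Ω) ^ t • Φ ((N ^ t) v) := by
    intro t
    induction t with
    | zero => intro v; simp
    | succ t ih =>
      intro v
      rw [pow_succ', Module.End.mul_apply, ih, map_smul, hN, smul_smul, ← pow_succ,
        Module.End.mul_apply]
  -- the positive part
  have pos : ∀ (s : ℕ), f ≤ s → ∀ (α : Ω) (x : V), x ∈ M s → x ∉ M ((s : ℤ) - 1) →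
      Φ x - α • x ∈ M ((s : ℤ) - 1) → IsWeilNumber q (k + s) α := by
    intro s hs α x hx hx' hα
    obtain ⟨w, hw, y, hy, hy', hyα⟩ := eigen_above h.mono h.top hΦW
      (hM.mono (show (s : ℤ) - 1 ≤ s by omega)) (hΦM _) (h.le_mon hM s hs) hx hx' hα
    have h1 := hweil w α y hy hy' hyα
    have hx2 : (N ^ s) x ∈ M (-s) := by
      have := hM.on.pow_map s _ x hx
      rwa [show (s : ℤ) - 2 * (s : ℤ) = -s by ring] at this
    have hx3 : (N ^ s) x ∉ M (-(s : ℤ) - 1) := fun hc => hx' (hM.inj s x hx hc)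
    have hx4 : Φ ((N ^ s) x) - (((q : Ω) ^ s)⁻¹ * α) • (N ^ s) x ∈ M (-(s : ℤ) - 1) := by
      have h2 : (N ^ s) (Φ x - α • x) ∈ M (-(s : ℤ) - 1) := by
        have := hM.on.pow_map s _ _ hα
        rwa [show (s : ℤ) - 1 - 2 * (s : ℤ) = -s - 1 by ring] at this
      have h3 : Φ ((N ^ s) x) - (((q : Ω) ^ s)⁻¹ * α) • (N ^ s) x =
          ((q : Ω) ^ s)⁻¹ • (N ^ s) (Φ x - α • x) := by
        rw [map_sub, hpow, map_smul, smul_sub, smul_smul, smul_smul,
          inv_mul_cancel₀ (pow_ne_zero _ hqΩ), one_smul]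
      rw [h3]
      exact Submodule.smul_mem _ _ h2
    obtain ⟨w', hw', y', hy1, hy2, hyα'⟩ := eigen_below h.mono h.bot
      (hM.mono (show -(s : ℤ) - 1 ≤ -s by omega)) (hΦM _) (h.mon_le hM s hs) hx2 hx3 hx4
    have h4 := (hweil w' _ y' hy1 hy2 hyα').twist hq s
    rw [zpow_natCast, ← mul_assoc, mul_inv_cancel₀ (pow_ne_zero _ hqΩ), one_mul] at h4
    exact weil_squeeze hq h1 h4 (by omega) (by omega)
  refine ⟨hΦM s, ?_⟩
  intro α x hx hx' hα
  rcases le_total 0 s with h0 | h0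
  · obtain ⟨t, rfl⟩ := Int.eq_ofNat_of_zero_le h0
    rw [Nat.abs_cast] at hs
    exact pos t (by exact_mod_cast hs) α x hx hx' hα
  · obtain ⟨t, ht⟩ : ∃ t : ℕ, s = -(t : ℤ) := ⟨s.natAbs, by omega⟩
    subst ht
    rw [abs_neg, Nat.abs_cast] at hs
    obtain ⟨z, hz, rfl⟩ := hM.on.surj_exact t x hx
    have hz' : z ∉ M ((t : ℤ) - 1) := by
      intro hc
      apply hx'
      have := hM.on.pow_map t _ z hc
      rwa [show (t : ℤ) - 1 - 2 * (t : ℤ) = -t - 1 by ring] at this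
    have hzα : Φ z - ((q : Ω) ^ t * α) • z ∈ M ((t : ℤ) - 1) := by
      apply hM.inj t _ (sub_mem (hΦM _ _ hz) (Submodule.smul_mem _ _ hz))
      rw [map_sub, hpow, map_smul, mul_smul, ← smul_sub]
      exact Submodule.smul_mem _ _ hα
    have h1 := (pos t (by exact_mod_cast hs) _ z hz hz' hzα).twist hq (-(t : ℤ))
    rw [zpow_neg, zpow_natCast, ← mul_assoc, inv_mul_cancel₀ (pow_ne_zero _ hqΩ), one_mul] at h1
    rwa [show k + (t : ℤ) + 2 * -(t : ℤ) = k + -t by ring] at h1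

end linalg

end Pool.Agent.N184.WM
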