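import Pool.Agent.X302.MW.Defs

/-!
# Definitions for the theorem on the outer weights
-/

namespace Pool.Agent.N184.WM

universe u v

open Module Pool.Agent.Y143 Pool.Agent.X302.MW

section

variable {Ω : Type u} [Field Ω] [CharZero Ω] {V : Type v} [AddCommGroup V] [Module Ω V]

/-- The weight-monodromy assertion for the graded piece `gr_s = M_s / M_(s - 1)` of the monodromy
filtration `M` of `N`: the geometric Frobenius `Φ` stabilizes `M_s` and all its eigenvalues on `gr_s`
are `q`-Weil numbers of weight `i + s`. -/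
def IsPureAt (q : ℕ) (i : ℤ) (Φ N : Module.End Ω V) (s : ℤ) : Prop :=
  ∀ M : ℤ → Submodule Ω V, IsMonodromyFiltration N M → (∀ x ∈ M s, Φ x ∈ M s) ∧
    ∀ (α : Ω) (x : V), x ∈ M s → x ∉ M (s - 1) → Φ x - α • x ∈ M (s - 1) →
      IsWeilNumber q (i + s) α

/-- The relation `N Φ = q Φ N` between a geometric Frobenius and the logarithm of the monodromy. -/
def IsTwisted (q : ℕ) (Φ N : Module.End Ω V) : Prop := ∀ v, N (Φ v) = (q : Ω) • Φ (N v)

end

variable {Ω : Type u} [Field Ω] [CharZero Ω] {Γ : Type} {n q : ℕ}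

/-- All characters are controlled in the weights `w` with `2 ≤ w ≤ w₀` on the `Y^(a+2)` with
`a + 1 + w ≤ min (k, 2 n - k)`. This is no condition if `w₀ ≤ 1`. -/
def ControlledUpTo {X : SpecialFibre.{u, v} Ω Γ n q} (A : DivisorClasses X) (k w₀ : ℕ) : Prop :=
  ∀ (a w : ℕ) (χ : Γ → Ω), 2 ≤ w → w ≤ w₀ → a + 1 + w ≤ k → a + 1 + w + k ≤ 2 * n →
    ControlledAt A a w χ

end Pool.Agent.N184.WM
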