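import Pool.Agent.N184.WM.Defs

/-!
# Cohomology as a direct summand of the cohomology of a semistable scheme
-/

namespace Pool.Agent.N184.WM

universe u v

open Module Pool.Agent.Y143

section

variable {Ω : Type u} [Field Ω] {V : Type v} [AddCommGroup V] [Module Ω V] {V' : Type v}
  [AddCommGroup V'] [Module Ω V']

/-- `f A = B f`. -/
def Intertwines (f : V →ₗ[Ω] V') (A : Module.End Ω V) (B : Module.End Ω V') : Prop :=
  ∀ x, f (A x) = B (f x)

/-- `push ∘ pull = 1`. -/
def IsRetract (pull : V →ₗ[Ω] V') (push : V' →ₗ[Ω] V) : Prop := ∀ x, push (pull x) = x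

/-- `N T = c T N`. -/
def CommutesUpTo (c : Ω) (T N : Module.End Ω V) : Prop := ∀ x, N (T x) = c • T (N x)

/-- `α` is an algebraic number all of whose complex conjugates have absolute value `c`. -/
def HasAbs [CharZero Ω] (c : ℝ) (α : Ω) : Prop :=
  IsAlgebraic ℚ α ∧ ∀ z : ℂ, Polynomial.aeval z (minpoly ℚ α) = 0 → ‖z‖ = c

/-- Let `M` be the monodromy filtration of `N`. Then `T` stabilizes `M_s` and every eigenvalue `α` of
`T` on `gr_s = M_s / M_(s - 1)` satisfies `P α`. -/
def EigenvaluesOn (T N : Module.End Ω V) (s : ℤ) (P : Ω → Prop) : Prop :=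
  ∀ M : ℤ → Submodule Ω V, IsMonodromyFiltration N M → (∀ x ∈ M s, T x ∈ M s) ∧
    ∀ (α : Ω) (x : V), x ∈ M s → x ∉ M (s - 1) → T x - α • x ∈ M (s - 1) → P α

end

/-- The space `V = H^m_pst(X)` for a smooth proper `K`-scheme `X`, with coefficients in `Ω`: the
linear action `act` of the Weil group `G` of `K`, the valuation `val : G → ℤ` (`val g = h n` if `g`
acts on the algebraic closure of the residue field of `p ^ h` elements as the `n`-th power of the
geometric Frobenius) and the monodromy `N`. -/
structure WeilModule (Ω : Type u) [Field Ω] where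
  V : Type v
  [addCommGroup : AddCommGroup V]
  [module : Module Ω V]
  G : Type
  [group : Group G]
  val : G → ℤ
  act : G →* Module.End Ω V
  N : Module.End Ω V

attribute [instance] WeilModule.addCommGroup WeilModule.module WeilModule.group

namespace WeilModule

variable {Ω : Type u} [Field Ω] (D : WeilModule.{u, v} Ω)

/-- The action of an element of the Weil group. -/
def op (g : D.G) : Module.End Ω D.V := D.act g

/-- The relations `val (g⁻¹) = - val g` and `N g = p ^ (val g) g N`. -/
structure IsTwistedBy (p : ℕ) : Prop where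
  val_inv : ∀ g, D.val g⁻¹ = - D.val g
  twist : ∀ g, CommutesUpTo ((p : Ω) ^ D.val g) (D.op g) D.N

/-- The assertion of the monodromy-weight conjecture for `H^m`, the graded piece `gr_s` of the
monodromy filtration of `N` on `V`, and the element `g` of the Weil group: `g` stabilizes `M_s` and
every eigenvalue of `g` on `gr_s` is an algebraic number all of whose complex conjugates have absolute
value `p ^ ((m + s) val(g) / 2)`. -/
def WeightMonodromyAt [CharZero Ω] (m p : ℕ) (s : ℤ) (g : D.G) : Prop :=
  EigenvaluesOn (D.op g) D.N s (HasAbs ((p : ℝ) ^ (((m : ℝ) + s) * D.val g / 2)))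

end WeilModule

variable {Ω : Type u} [Field Ω] [CharZero Ω] {Γ : Type} {n q : ℕ}

/-- The element `g` of the Weil group of `K` has a power `g ^ a`, `a > 0`, which acts as the power
`Φ ^ b` of the geometric Frobenius `Φ` (for the residue field with `p ^ f` elements), with
`a * val g = b * f`. -/
def ActsAsFrobenius (D : WeilModule.{u, v} Ω) {V' : Type v} [AddCommGroup V'] [Module Ω V']
    (Φ : Module.End Ω V') (f : ℕ) (pull : D.V →ₗ[Ω] V') (g : D.G) : Prop :=
  ∃ a b : ℕ, 0 < a ∧ a * D.val g = b * f ∧ Intertwines pull (D.op (g ^ a)) (Φ ^ b)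

/-- `V = H^m_pst(X)` is a direct summand of `H^m_pst(Y)` for a strictly semistable alteration `Y` of
`X` over a finite extension of `K` with residue field of `p ^ f` elements, by the pull-back and the
normalized push-forward, which commute with `N`; a power of every `g` with `val g ≥ 0` acts as a power
of the geometric Frobenius. -/
structure IsSummand (D : WeilModule.{u, v} Ω) (Y : SemistableModel.{u, v} Ω Γ n q) (m f : ℕ)
    (pull : D.V →ₗ[Ω] Y.V m) (push : Y.V m →ₗ[Ω] D.V) : Prop where
  retract : IsRetract pull push
  pull_N : Intertwines pull D.N (Y.N m)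
  push_N : Intertwines push (Y.N m) D.N
  frob : ∀ g, 0 ≤ D.val g → ActsAsFrobenius D (Y.actV m Y.frob) f pull g

end Pool.Agent.N184.WM
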