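import Pool.Agent.N184.WM.PDefs
import Pool.Agent.N184.WM.Geo

/-!
# Descent of the outer weights to direct summands
-/

namespace Pool.Agent.N184.WM

universe u v

open Module Submodule Polynomial Pool.Agent.Y143 Pool.Agent.X302.MW

variable {Ω : Type u} [Field Ω] [CharZero Ω] {Γ : Type} {n q : ℕ}

/-- An eigenvalue `γ` of `S ^ b` on `Z / B` is `β ^ b` for an eigenvalue `β` of `S` on `Z / B`. -/
lemma exists_root_eigen [IsAlgClosed Ω] {V : Type*} [AddCommGroup V] [Module Ω V]
    {S : Module.End Ω V} {Z B : Submodule Ω V} (hZ : ∀ x ∈ Z, S x ∈ Z) :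
    ∀ (P : Polynomial Ω), P ≠ 0 → ∀ x ∈ Z, x ∉ B → (aeval S P) x ∈ B →
      ∃ β, P.IsRoot β ∧ ∃ y ∈ Z, y ∉ B ∧ S y - β • y ∈ B := by
  intro P hP
  have key : ∀ (N : ℕ) (P : Polynomial Ω), P.natDegree = N → P ≠ 0 → ∀ x ∈ Z, x ∉ B →
      (aeval S P) x ∈ B → ∃ β, P.IsRoot β ∧ ∃ y ∈ Z, y ∉ B ∧ S y - β • y ∈ B := by
    intro N
    induction N with
    | zero =>
      intro P hd hP x _ hxB h
      exfalso
      rw [Polynomial.eq_C_of_natDegree_eq_zero hd, aeval_C] at h
      have hc : P.coeff 0 ≠ 0 := by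
        intro hc
        apply hP
        rw [Polynomial.eq_C_of_natDegree_eq_zero hd, hc, C_0]
      have h2 : P.coeff 0 • x ∈ B := by simpa [Algebra.algebraMap_eq_smul_one] using h
      exact hxB ((Submodule.smul_mem_iff _ hc).1 h2)
    | succ N ih =>
      intro P hd hP x hx hxB h
      obtain ⟨β, hβ⟩ := IsAlgClosed.exists_root P (by
        intro h0
        rw [Polynomial.degree_eq_natDegree hP, hd] at h0
        exact absurd h0 (by norm_cast))
      obtain ⟨R, hR⟩ := Polynomial.dvd_iff_isRoot.2 hβ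
      have hR0 : R ≠ 0 := by
        rintro rfl
        exact hP (by rw [hR, mul_zero])
      have hRd : R.natDegree = N := by
        have h1 : P.natDegree = 1 + R.natDegree := by
          rw [hR, Polynomial.natDegree_mul (Polynomial.X_sub_C_ne_zero β) hR0,
            Polynomial.natDegree_X_sub_C]
        omega
      have hstab : ∀ (Q : Polynomial Ω) (x : V), x ∈ Z → (aeval S Q) x ∈ Z := by
        intro Q
        induction Q using Polynomial.induction_on' with
        | add Q Q' h1 h2 => intro x hx; rw [map_add]; exact Z.add_mem (h1 x hx) (h2 x hx)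
        | monomial k c =>
          intro x hx
          rw [aeval_monomial]
          have : ∀ k : ℕ, (S ^ k) x ∈ Z := by
            intro k
            induction k with
            | zero => simpa using hx
            | succ k ih => rw [pow_succ', Module.End.mul_apply]; exact hZ _ ih
          have h3 : (algebraMap Ω (Module.End Ω V) c * S ^ k) x = c • (S ^ k) x := by
            rw [Module.End.mul_apply, Module.algebraMap_end_apply]
          rw [h3]
          exact Z.smul_mem _ (this k)
      by_cases hy : (aeval S R) x ∈ B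
      · obtain ⟨β', hβ', h'⟩ := ih R hRd hR0 x hx hxB hy
        refine ⟨β', ?_, h'⟩
        rw [hR, Polynomial.IsRoot.def, Polynomial.eval_mul, hβ'.eq_zero, mul_zero]
      · refine ⟨β, hβ, (aeval S R) x, hstab R x hx, hy, ?_⟩
        have h1 : (aeval S P) x = S ((aeval S R) x) - β • (aeval S R) x := by
          rw [hR, map_mul, Module.End.mul_apply, map_sub, aeval_X, aeval_C, LinearMap.sub_apply,
            Module.algebraMap_end_apply]
        rwa [h1] at h
  exact key P.natDegree P rfl hP

omit [CharZero Ω] in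
lemma op_mul (D : WeilModule.{u, v} Ω) (g h : D.G) : D.op (g * h) = D.op g * D.op h :=
  map_mul D.act g h

omit [CharZero Ω] in
lemma op_one (D : WeilModule.{u, v} Ω) : D.op 1 = 1 := map_one D.act

/-- **Outer weights for all proper smooth schemes.** -/
theorem outer_summand [IsAlgClosed Ω] (Y : Degeneration.{u, v} Ω Γ n q)
    (A : DivisorClasses Y.toSpecialFibre) (m w₀ p f : ℕ) (hq : q = p ^ f) (hf : 0 < f)
    (hA : ControlledUpTo A m w₀)
    (hN : IsTwisted q (Y.actV m Y.frob) (Y.N m))
    (D' : WeilModule.{u, v} Ω) (hD : D'.IsTwistedBy p) (ι : D'.V →ₗ[Ω] Y.V m)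
    (π : Y.V m →ₗ[Ω] D'.V) (D : IsSummand D' Y.toSemistableModel m f ι π) (s : ℤ)
    (hs : (m : ℤ) - w₀ - 1 ≤ |s| ∨ 2 * (n : ℤ) - m - w₀ - 1 ≤ |s|) (g : D'.G) :
    D'.WeightMonodromyAt m p s g := by
  intro M' hM'
  have hq0 := Y.q_ne
  have hp0 : p ≠ 0 := by
    rintro rfl
    apply hq0
    rw [hq, zero_pow hf.ne']
  have hpΩ : (p : Ω) ≠ 0 := Nat.cast_ne_zero.2 hp0
  have hpR : (0 : ℝ) < p := Nat.cast_pos.2 (Nat.pos_of_ne_zero hp0)
  -- the monodromy filtration upstairs
  have hO := isOuter Y A m s.natAbs w₀ (by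
    rw [Int.abs_eq_natAbs] at hs
    omega) hA
  have hM := isMonodromyFiltration_monFil hO.nilp
  set M := monFil (Y.N m) with hMdef
  have hout := outer Y A m w₀ hA hN M hM s hs
  have hstab : ∀ (g : D'.G) (s : ℤ) x, x ∈ M' s → D'.op g x ∈ M' s := by
    intro g s x hx
    exact IsMonodromyFiltrationOn.functorial hM'.on hM'.on (D'.op g) (fun _ _ => trivial)
      (c := (p : Ω) ^ D'.val g) (zpow_ne_zero _ hpΩ) (fun x _ => hD.twist g x) s hx
  have hι : ∀ s x, x ∈ M' s → ι x ∈ M s := by
    intro s x hx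
    exact IsMonodromyFiltrationOn.functorial hM'.on hM.on ι (fun _ _ => trivial)
      (c := 1) one_ne_zero (fun x _ => by rw [one_smul, D.pull_N]) s hx
  have hπ : ∀ s x, x ∈ M s → π x ∈ M' s := by
    intro s x hx
    exact IsMonodromyFiltrationOn.functorial hM.on hM'.on π (fun _ _ => trivial)
      (c := 1) one_ne_zero (fun x _ => by rw [one_smul, D.push_N]) s hx
  have hιn : ∀ s x, x ∉ M' s → ι x ∉ M s := by
    intro s x hx hc
    apply hx
    rw [← D.retract x]
    exact hπ s _ hc
  -- powers of an element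
  have hpow : ∀ (g : D'.G) (α : Ω) (x : D'.V), x ∈ M' s → D'.op g x - α • x ∈ M' (s - 1) → ∀ a : ℕ,
      D'.op (g ^ a) x - α ^ a • x ∈ M' (s - 1) := by
    intro g α x hx h a
    induction a with
    | zero => simp [op_one]
    | succ a ih =>
      have e : D'.op (g ^ (a + 1)) x - α ^ (a + 1) • x =
          D'.op g (D'.op (g ^ a) x - α ^ a • x) + α ^ a • (D'.op g x - α • x) := by
        rw [map_sub, map_smul, pow_succ' g, op_mul, Module.End.mul_apply, smul_sub, smul_smul,
          ← pow_succ]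
        abel
      rw [e]
      exact Submodule.add_mem _ (hstab g _ _ ih) (Submodule.smul_mem _ _ h)
  -- the case of nonnegative valuation
  have pos : ∀ (g : D'.G), 0 ≤ D'.val g → ∀ (α : Ω) (x : D'.V), x ∈ M' s → x ∉ M' (s - 1) →
      D'.op g x - α • x ∈ M' (s - 1) → IsAlgebraic ℚ α ∧ ∀ z : ℂ, aeval z (minpoly ℚ α) = 0 →
        ‖z‖ = (p : ℝ) ^ (((m : ℝ) + s) * D'.val g / 2) := by
    intro g hg α x hx hx' hα
    obtain ⟨a, b, ha, hab, hgab⟩ := D.frob g hg
    have h1 := hι _ _ (hpow g α x hx hα a)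
    rw [map_sub, map_smul, hgab] at h1
    rcases Nat.eq_zero_or_pos b with hb | hb
    · -- `b = 0`: the eigenvalue is a root of unity
      subst hb
      have hval : D'.val g = 0 := by
        have : (a : ℤ) * D'.val g = 0 := by rw [hab]; simp
        rcases mul_eq_zero.1 this with h | h
        · omega
        · exact h
      have h2 : (1 - α ^ a) • ι x ∈ M (s - 1) := by
        rw [sub_smul, one_smul]
        simpa using h1
      have h3 : α ^ a = 1 := by
        by_contra hne
        exact hιn _ _ hx' ((Submodule.smul_mem_iff _ (sub_ne_zero.2 (Ne.symm hne))).1 h2)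
      have halg : IsAlgebraic ℚ α := IsAlgebraic.of_pow ha (by rw [h3]; exact isAlgebraic_one)
      refine ⟨halg, fun z hz => ?_⟩
      have h4 := aeval_minpoly_pow hz a
      rw [h3, minpoly.one] at h4
      simp only [map_sub, aeval_X, map_one, sub_eq_zero] at h4
      have h5 : ‖z‖ ^ a = 1 := by rw [← norm_pow, h4, norm_one]
      have h6 : ‖z‖ = 1 := by
        rwa [pow_eq_one_iff_of_nonneg (norm_nonneg z) ha.ne'] at h5
      rw [h6, hval]
      simp
    · obtain ⟨β, hβ, y, hy, hy', hyβ⟩ := exists_root_eigen (S := Y.actV m Y.frob) (Z := M s)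
        (B := M (s - 1)) hout.1 (X ^ b - C (α ^ a)) (Polynomial.X_pow_sub_C_ne_zero hb _) (ι x)
        (hι _ _ hx) (hιn _ _ hx') (by
          rw [map_sub, map_pow, aeval_X, aeval_C, LinearMap.sub_apply, Module.algebraMap_end_apply]
          exact h1)
      have h2 : β ^ b = α ^ a := by
        have := hβ.eq_zero
        rw [Polynomial.eval_sub, Polynomial.eval_pow, Polynomial.eval_X, Polynomial.eval_C,
          sub_eq_zero] at this
        exact this
      have h3 := (hout.2 β y hy hy' hyβ).pow b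
      rw [h2] at h3
      refine ⟨h3.1.of_pow ha, fun z hz => ?_⟩
      have h4 := h3.2 _ (aeval_minpoly_pow hz a)
      rw [norm_pow] at h4
      have haR : (0 : ℝ) < a := Nat.cast_pos.2 ha
      have h5 : ((p : ℝ) ^ (((m : ℝ) + s) * D'.val g / 2)) ^ a =
          (q : ℝ) ^ (((b * (m + s) : ℤ) : ℝ) / 2) := by
        rw [← Real.rpow_natCast, ← Real.rpow_mul hpR.le, hq, Nat.cast_pow, ← Real.rpow_natCast,
          ← Real.rpow_mul hpR.le]
        congr 1
        have h6 : (a : ℝ) * D'.val g = b * f := by exact_mod_cast hab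
        push_cast
        linear_combination ((m : ℝ) + s) / 2 * h6
      rw [← h5] at h4
      exact (pow_left_inj₀ (norm_nonneg z) (Real.rpow_nonneg hpR.le _) ha.ne').1 h4
  refine ⟨fun x hx => hstab g s x hx, fun α x hx hx' hα => ?_⟩
  rcases le_total 0 (D'.val g) with hg | hg
  · exact pos g hg α x hx hx' hα
  · have hginv : ∀ y, D'.op g⁻¹ (D'.op g y) = y := by
      intro y
      rw [← Module.End.mul_apply, ← op_mul, inv_mul_cancel, op_one, Module.End.one_apply]
    have hα0 : α ≠ 0 := by
      rintro rfl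
      rw [zero_smul, sub_zero] at hα
      apply hx'
      rw [← hginv x]
      exact hstab _ _ _ hα
    have h1 : D'.op g⁻¹ x - α⁻¹ • x ∈ M' (s - 1) := by
      have e : D'.op g⁻¹ x - α⁻¹ • x = -(α⁻¹ • D'.op g⁻¹ (D'.op g x - α • x)) := by
        rw [map_sub, hginv, map_smul, smul_sub, smul_smul, inv_mul_cancel₀ hα0, one_smul]
        abel
      rw [e]
      exact Submodule.neg_mem _ (Submodule.smul_mem _ _ (hstab _ _ _ hα))
    obtain ⟨h2, h3⟩ := pos g⁻¹ (by rw [hD.val_inv]; omega) α⁻¹ x hx hx' h1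
    refine ⟨by simpa using h2.inv, fun z hz => ?_⟩
    have h4 : aeval z⁻¹ (minpoly ℚ α⁻¹) = 0 := by
      apply aeval_minpoly_inv h2
      rwa [inv_inv]
    have h5 := h3 _ h4
    rw [norm_inv, hD.val_inv] at h5
    rw [← inv_inv ‖z‖, h5, ← Real.rpow_neg hpR.le]
    congr 1
    push_cast
    ring

end Pool.Agent.N184.WM
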