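import Pool.Agent.X302.MW.Fin

/-!
# The induction of `X302.MW.Core` in a range of weights

The induction on pairs of Lefschetz complexes in duality only involves bidegrees of smaller weight.
-/

namespace Pool.Agent.N184.WM

universe u v

open Module Submodule Pool.Agent.Y143 Pool.Agent.X302.MW

section

variable {Ω : Type*} [Field Ω] {C : Type*} [AddCommGroup C] [Module Ω C] [FiniteDimensional Ω C]
variable {ψ : C →ₗ[Ω] C →ₗ[Ω] Ω} {d : ℤ → Module.End Ω C} {L : Module.End Ω C}
  {G G' : ℤ → ℤ → Submodule Ω C}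

lemma stepD (h : LefDual ψ d L G G') (hG : LefComplex d L G) (hG' : LefComplex d L G') (M : ℕ)
    (D : ℤ) (hT : ∀ i : ℤ, 1 ≤ i → ∀ m : ℕ, M ≤ m → -(m : ℤ) - i ≤ D → CritP d L G G' i m)
    (i j : ℤ) (hj : j ≤ -M) (hD : j - i ≤ D)
    (ih : ∀ i' j' : ℤ, j' ≤ -M → j' - i' < j - i → LefDual.Diag d G G' i' j')
    (ih2 : LefDual.Diag d G G' (i - 1) (j - 1)) : LefDual.Diag d G G' i j := by
  have k1 := h.kk_eq hG' i j
  have k2 := hh_eq d G i j
  have k3 := hh_eq d G' i j
  have k4 := ih2.rk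
  rcases lt_trichotomy i 0 with hi | hi | hi
  · -- negative column
    have a1 := ih (-i) j hj (by omega)
    have a2 := ih (-i - 1) (j - 1) (by omega) (by omega)
    have b1 := h.kk_eq hG' (-i) j
    have b2 := hh_eq d G (-i) j
    have b3 := hh_eq d G' (-i) j
    have c1 := h.hh_neg hG hG' (-i) j
    have c2 := h.flip.hh_neg hG' hG (-i) j
    rw [neg_neg] at c1 c2
    have d1 := a1.rk
    have d2 := a2.rk
    exact ⟨by omega, fun h => by omega⟩
  · subst hi
    have c1 := h.hh_neg hG hG' 0 j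
    rw [neg_zero] at c1
    exact ⟨by omega, fun h => by omega⟩
  · have hg : Good2 d G G' i j := by
      obtain ⟨m, hm⟩ := Int.eq_ofNat_of_zero_le (show 0 ≤ -j by omega)
      obtain rfl : j = -m := by omega
      have g2 := (ih i (-((m + 2 : ℕ) : ℤ)) (by push_cast; omega) (by push_cast; omega)).good hi
      have g3 := h.good_pos hG hG' i hi _ g2
      have g4 := (ih i (-m - 2) (by omega) (by omega)).rk
      have hm2 : ((m + 2 : ℕ) : ℤ) = (m : ℤ) + 2 := by push_cast; ring
      have hI : NInj d G i ((m : ℤ) + 2) := by rw [← hm2]; exact g3.inj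
      have hI' : NInj d G' i ((m : ℤ) + 2) := by rw [← hm2]; exact g3.inj'
      exact core2' h hG hG' i hi m hI hI' k4 g4 (hT i hi m (by omega) hD)
    exact ⟨by have := hg.hh; omega, fun _ => hg⟩

/-- If the condition `CritP` holds for all `i ≥ 1` and `m ≥ M` with `-m - i ≤ D`, then `N ^ i` is an
isomorphism on cohomology in the degrees `j ≤ -M` with `j - i ≤ D`. -/
theorem mainD (h : LefDual ψ d L G G') (hG : LefComplex d L G) (hG' : LefComplex d L G') (M : ℕ)
    (D : ℤ) (hT : ∀ i : ℤ, 1 ≤ i → ∀ m : ℕ, M ≤ m → -(m : ℤ) - i ≤ D → CritP d L G G' i m)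
    (i j : ℤ) (hj : j ≤ -M) (hD : j - i ≤ D) : LefDual.Diag d G G' i j := by
  obtain ⟨B, hB0, hB⟩ := hG.bdd
  obtain ⟨B', hB0', hB'⟩ := hG'.bdd
  have key : ∀ N : ℕ, ∀ i j : ℤ, j ≤ -M → j - i ≤ D → j - i < -2 * (B + B') + N →
      LefDual.Diag d G G' i j := by
    intro N
    induction N with
    | zero =>
      intro i j _ _ hij
      have hb : ∀ i j : ℤ, j - i < -2 * (B + B') → G i j = ⊥ ∧ G' i j = ⊥ := by
        intro i j hij
        have habs : B + B' < |i| ∨ B + B' < |j| := by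
          by_contra hcon
          push Not at hcon
          obtain ⟨h1, h2⟩ := hcon
          have h3 := abs_le.1 h1
          have h4 := abs_le.1 h2
          omega
        constructor
        · apply hB
          rcases habs with h1 | h1
          · left; omega
          · right; omega
        · apply hB'
          rcases habs with h1 | h1
          · left; omega
          · right; omega
      have hij' : j - i < -2 * (B + B') := by simpa using hij
      obtain ⟨g1, g2⟩ := hb i j hij'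
      obtain ⟨g3, g4⟩ := hb (i - 1) (j - 1) (by omega)
      have z1 : Zc d G i j = ⊥ := by unfold Zc; rw [g1]; simp
      have z2 : Zc d G' i j = ⊥ := by unfold Zc; rw [g2]; simp
      have z3 : Bd d G i j = ⊥ := by unfold Bd; rw [g3]; simp
      have z4 : Bd d G' i j = ⊥ := by unfold Bd; rw [g4]; simp
      refine ⟨by rw [LefDual.rk_bot g1, LefDual.rk_bot g2], fun hi => ?_⟩
      refine h.good_of_inj hG hG' i hi j ?_ ?_
      · unfold NInj; rw [z3]; simp
      · unfold NInj; rw [z4]; simp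
    | succ N ihN =>
      intro i j hjM hD hij
      -- inner induction on the column
      have inner : ∀ R : ℕ, ∀ i' j' : ℤ, j' ≤ -M → j' - i' = j - i → i' < -(B + B') + R →
          LefDual.Diag d G G' i' j' := by
        intro R
        induction R with
        | zero =>
          intro i' j' _ hd hi'
          have hlt : i' < -(B + B') := by simpa using hi'
          have habs : B + B' < |i'| := by
            rw [abs_of_nonpos (by omega)]
            omega
          have habs2 : B + B' < |i' - 1| := by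
            rw [abs_of_nonpos (by omega)]
            omega
          have g1 : G i' j' = ⊥ := hB _ _ (Or.inl (by omega))
          have g2 : G' i' j' = ⊥ := hB' _ _ (Or.inl (by omega))
          exact ⟨by rw [LefDual.rk_bot g1, LefDual.rk_bot g2], fun h => by omega⟩
        | succ R ihR =>
          intro i' j' hj' hd hi'
          apply stepD h hG hG' M D hT i' j' hj' (by omega)
          · intro i'' j'' hj'' hlt
            apply ihN _ _ hj'' (by omega)
            push_cast at hij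
            omega
          · apply ihR
            · omega
            · omega
            · push_cast at hi'
              omega
      exact inner (i + (B + B') + 1).toNat i j hjM rfl (by omega)
  exact key (j - i + 2 * (B + B') + 1).toNat i j hj hD (by omega)

theorem goodD (h : LefDual ψ d L G G') (hG : LefComplex d L G) (hG' : LefComplex d L G') (M : ℕ)
    (D : ℤ) (hT : ∀ i : ℤ, 1 ≤ i → ∀ m : ℕ, M ≤ m → -(m : ℤ) - i ≤ D → CritP d L G G' i m)
    (i j : ℤ) (hi : 1 ≤ i) (hj : (M : ℤ) ≤ |j|) (hD : -|j| - i ≤ D) : Good2 d G G' i j := by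
  rcases le_total j 0 with h0 | h0
  · rw [abs_of_nonpos h0] at hj hD
    exact (mainD h hG hG' M D hT i j (by omega) (by omega)).good hi
  · rw [abs_of_nonneg h0] at hj hD
    obtain ⟨m, rfl⟩ := Int.eq_ofNat_of_zero_le h0
    exact h.good_pos hG hG' i hi m ((mainD h hG hG' M D hT i (-m) (by omega) hD).good hi)

end

variable {Ω : Type u} [Field Ω] [CharZero Ω] {Γ : Type} {n q : ℕ}

variable [IsAlgClosed Ω] (X : Degeneration.{u, v} Ω Γ n q)

lemma critP_clsD (A : DivisorClasses X.toSpecialFibre) (M : ℕ) (D : ℤ)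
    (hA : ∀ (a w : ℕ) (χ : Γ → Ω), 2 ≤ w → a + 1 + w + M ≤ n → (w : ℤ) ≤ n + D →
      ControlledAt A a w χ)
    (χ : Γ → Ω) (p : ℤ) (i : ℤ) (hi : 1 ≤ i) (m : ℕ) (hm : M ≤ m) (hD : -(m : ℤ) - i ≤ D) :
    CritP X.diff X.lefC (X.cls χ p) (X.cls (X.dualChar χ) (1 - p)) i m := by
  obtain ⟨a, ha⟩ := Int.eq_ofNat_of_zero_le (show 0 ≤ i - 1 by omega)
  obtain rfl : i = (a : ℤ) + 1 := by omega
  rcases lt_or_ge ((n : ℤ) - m - ((a : ℤ) + 1)) 2 with hw | hw
  · exact Or.inl ⟨critI_low X A χ p a m hw, critI_low X A _ _ a m hw⟩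
  obtain ⟨w, hw'⟩ := Int.eq_ofNat_of_zero_le (show 0 ≤ (n : ℤ) - m - ((a : ℤ) + 1) by omega)
  have h2 : 2 ≤ w := by omega
  have hn : a + 1 + w + M ≤ n := by omega
  have hw0 : (w : ℤ) ≤ n + D := by omega
  have hdual := chr_dual X χ p ((a : ℤ) + 1) m hw'
  rcases crit_of_controlled X A χ p a m w (by omega) hw' (hA _ _ _ h2 hn hw0) with h | h | h
  · rcases crit_of_controlled X A (X.dualChar χ) (1 - p) a m w (by omega) hw'
      (hA _ _ _ h2 hn hw0) with h' | h' | h'
    · exact Or.inl ⟨h, h'⟩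
    · exact Or.inr (Or.inr h')
    · rw [hdual, dualAt_dualAt] at h'
      exact Or.inr (Or.inl (critS_of_covered X χ p a m w hw' h'))
  · exact Or.inr (Or.inl h)
  · rw [← hdual] at h
    exact Or.inr (Or.inr (critS_of_covered X _ _ a m w hw' h))

lemma good_clsD (A : DivisorClasses X.toSpecialFibre) (M : ℕ) (D : ℤ)
    (hA : ∀ (a w : ℕ) (χ : Γ → Ω), 2 ≤ w → a + 1 + w + M ≤ n → (w : ℤ) ≤ n + D →
      ControlledAt A a w χ)
    (χ : Γ → Ω) (p : ℤ) (i j : ℤ) (hi : 1 ≤ i) (hj : (M : ℤ) ≤ |j|) (hD : -|j| - i ≤ D) :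
    Good2 X.diff (X.cls χ p) (X.cls (X.dualChar χ) (1 - p)) i j :=
  goodD (X.cls_dual p χ) (X.cls_lefComplex χ p) (X.cls_lefComplex (X.dualChar χ) (1 - p)) M D
    (fun i hi m hm hmi => critP_clsD X A M D hA χ p i hi m hm hmi) i j hi hj hD

theorem nInj_totD (A : DivisorClasses X.toSpecialFibre) (M : ℕ) (D : ℤ)
    (hA : ∀ (a w : ℕ) (χ : Γ → Ω), 2 ≤ w → a + 1 + w + M ≤ n → (w : ℤ) ≤ n + D →
      ControlledAt A a w χ)
    (i : ℤ) (hi : 1 ≤ i) (j : ℤ) (hj : (M : ℤ) ≤ |j|) (hD : -|j| - i ≤ D) :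
    NInj X.diff X.tot i j := by
  rintro x ⟨hx1, hx2⟩
  apply mem_of_prj_mem (X.sym.comm (-i))
  intro μ
  obtain ⟨χ, hχ⟩ := exists_chr X μ (-i) j
  have h1 := X.sym.prj_zc χ n 0 hx1
  have h2 := X.sym.prj_bd χ n 0 hx2
  have h3 := (good_clsD X A M D hA χ 0 i j hi hj hD).inj
  have h4 : prj (X.actC (-i)) (X.sym.comm (-i)) μ x =
      prj (X.actC i) (X.sym.comm i) (chr X.cyc' χ n 0 i j) x := by
    have h5 := prj_equiv (X.sym.comm i) (X.sym.comm (-i)) (c := fun g => X.cyc' g ^ i)
      (fun g => zpow_ne_zero _ (X.cyc'_ne g)) (1 : Module.End Ω X.C)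
      (fun g x => by
        have := X.sym.shift i i g x
        rwa [show i - 2 * i = -i by ring] at this) (chr X.cyc' χ n 0 i j) x
    rw [← chr_neg X.cyc'_ne, hχ] at h5
    exact h5
  rw [hχ] at h1
  have h6 : prj (X.actC (-i)) (X.sym.comm (-i)) μ x ∈ Bd X.diff (X.cls χ 0) (-i) j := by
    apply h3
    refine ⟨h1, ?_⟩
    rw [h4]
    exact h2
  exact Sym.bd_cl_le χ n 0 _ _ h6

theorem nSurj_totD (A : DivisorClasses X.toSpecialFibre) (M : ℕ) (D : ℤ)
    (hA : ∀ (a w : ℕ) (χ : Γ → Ω), 2 ≤ w → a + 1 + w + M ≤ n → (w : ℤ) ≤ n + D →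
      ControlledAt A a w χ)
    (i : ℤ) (hi : 1 ≤ i) (j : ℤ) (hj : (M : ℤ) ≤ |j|) (hD : -|j| - i ≤ D) :
    NSurj X.diff X.tot i j := by
  intro y hy
  apply mem_of_prj_mem (X.sym.comm i)
  intro μ
  obtain ⟨χ, hχ⟩ := exists_chr X μ i j
  have h1 := X.sym.prj_zc χ n 0 hy
  rw [hχ] at h1
  have h3 := (good_clsD X A M D hA χ 0 i j hi hj hD).surj
  obtain ⟨u, hu, v, hv, huv⟩ := Submodule.mem_sup.1 (h3 h1)
  exact Submodule.mem_sup.2 ⟨u, Sym.zc_cl_le χ n 0 _ _ hu, v, Sym.bd_cl_le χ n 0 _ _ hv, huv⟩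

end Pool.Agent.N184.WM
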