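import Pool.Agent.N184.WM.Defs
import Pool.Agent.X302.MW.SDefs

/-!
# Definitions for the theorem on threefolds with maximal monodromy of order two
-/

namespace Pool.Agent.N184.WM

universe u v

open Module Pool.Agent.Y143 Pool.Agent.X302.MW

/-- `val` is a real valuation on the nonzero elements of `Ω`, normalized by `val q = 1`, with
valuation ring `R`. -/
structure IsValFor {Ω : Type*} [Field Ω] (q : ℕ) (R : ValuationSubring Ω) (val : Ω → ℝ) :
    Prop where
  mul : ∀ α β, α ≠ 0 → β ≠ 0 → val (α * β) = val α + val β
  norm : val (q : Ω) = 1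
  mem : ∀ α, α ≠ 0 → (α ∈ R ↔ 0 ≤ val α)

section

variable {Ω : Type*} [Field Ω] {V : Type*} [AddCommGroup V] [Module Ω V]

/-- The dimension of a subspace. -/
noncomputable def dimOf (U : Submodule Ω V) : ℕ := finrank Ω U

/-- The rank of `N ^ k`. -/
noncomputable def rankPow (N : Module.End Ω V) (k : ℕ) : ℕ := finrank Ω (LinearMap.range (N ^ k))

/-- `Φ` stabilizes `U`. -/
def Stable (Φ : Module.End Ω V) (U : Submodule Ω V) : Prop := ∀ x ∈ U, Φ x ∈ U

/-- The determinant of an operator. -/
noncomputable def detEnd (Φ : Module.End Ω V) : Ω := LinearMap.det Φ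

/-- The restriction of `Φ` to the stable subspace `U`. -/
def restrictTo (Φ : Module.End Ω V) (U : Submodule Ω V) (hU : Stable Φ U) : Module.End Ω U :=
  LinearMap.restrict Φ hU

/-- The determinant of `Φ` on the stable subspace `U`. -/
noncomputable def detOn (Φ : Module.End Ω V) (U : Submodule Ω V) (hU : Stable Φ U) : Ω :=
  detEnd (restrictTo Φ U hU)

/-- The Newton polygon of the Frobenius `Φ` lies above the Hodge polygon, in a weak form: the
determinant of `Φ` on every stable subspace `U` has valuation at least `dim U - h`. For `V = H^m` of a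
smooth proper variety with `h^(m, 0) = h` this holds because the `dim U` smallest Newton slopes have
at least the sum of the `dim U` smallest Hodge slopes, of which `h` are `0` and the others are at least
`1`. -/
def NewtonAbove (val : Ω → ℝ) (Φ : Module.End Ω V) (h : ℕ) : Prop :=
  ∀ (U : Submodule Ω V) (hU : Stable Φ U), (dimOf U : ℝ) - h ≤ val (detOn Φ U hU)

end

section

variable {Ω : Type u} [Field Ω] [CharZero Ω] {Γ : Type} {n q : ℕ}

/-- The generalized eigenspace for `α` of the Frobenius in the kernel of the restriction
`H^2(Y^(1)) → H^2(Y^(2))`; if `α` is not a product of `q` and a root of unity, it is the generalized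
eigenspace for `α` in the part of weight two of `H^2` of the generic fibre. -/
def kerPart (X : SpecialFibre.{u, v} Ω Γ n q) (α : Ω) : Submodule Ω (X.H 0) :=
  frobPart X 0 2 α ⊓ LinearMap.ker (X.res 0)

end

/-- The multiplicities of conjugate numbers `α`, `α'`, not products of `q` and a root of unity, in the
parts of weight two of `H^2` of the generic fibre in the two theories are equal. -/
def SameOnH2 {Ω : Type*} [Field Ω] [CharZero Ω] {Γ : Type} {Ω' : Type*} [Field Ω']
    [CharZero Ω'] {Γ' : Type} {n q : ℕ} (X : SpecialFibre Ω Γ n q) (X' : SpecialFibre Ω' Γ' n q) :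
    Prop :=
  ∀ (α : Ω) (α' : Ω'), AreConjugate α α' → ¬ IsTateNumber q α →
    finrank Ω (kerPart X α) = finrank Ω' (kerPart X' α')

end Pool.Agent.N184.WM
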