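import Pool.Agent.N184.WM.SlopeThree

/-!
# The slopes of the graded piece of weight two
-/

namespace Pool.Agent.N184.WM

universe u v

open Module Submodule Pool.Agent.Y143 Pool.Agent.X302.MW

variable {Ω : Type u} [Field Ω] [CharZero Ω] [IsAlgClosed Ω] {Γ : Type} {q : ℕ}

lemma weil_ne_zero {w : ℤ} (hq : q ≠ 0) {α : Ω} (h : IsWeilNumber q w α) : α ≠ 0 := by
  rintro rfl
  have h1 := h.2 0 (by rw [minpoly.zero]; simp)
  rw [norm_zero] at h1
  exact (Real.rpow_pos_of_pos (Nat.cast_pos.2 (Nat.pos_of_ne_zero hq)) _).ne h1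

/-- The rank of `N ^ 2` on `H^3` is at most `dim W_1 + dim W_0`. -/
lemma rank_N_sq (X : Degeneration.{u, v} Ω Γ 3 q) (A : DivisorClasses X.toSpecialFibre) :
    finrank Ω (LinearMap.range (X.N 3 ^ 2)) ≤ finrank Ω (X.W 3 1) + finrank Ω (X.W 3 0) := by
  have hfin := finite_V X.toSemistableModel 3
  have hO := isOuter X A 3 2 0 (Or.inl (by norm_num)) (fun a w χ h1 h2 _ _ => by omega)
  have htop : X.W 3 6 = ⊤ := W_big X.toSemistableModel 3 (by norm_num)
  have hmem : ∀ x : X.V 3, x ∈ X.W 3 6 := fun x => by rw [htop]; trivial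
  have h1 := finrank_map_add_ker (X.N 3 ^ 2) (X.W 3 5)
  have h2 := LinearMap.finrank_range_add_finrank_ker (X.N 3 ^ 2)
  have h3 := LinearMap.finrank_range_add_finrank_ker (X.N 3 ^ 3)
  -- the range of `N ^ 3` is contained in `W 0`
  have h4 : LinearMap.range (X.N 3 ^ 3) ≤ X.W 3 0 := by
    rintro _ ⟨x, rfl⟩
    have := hO.pow_map 3 3 x (X.W_cast (by norm_num) (hmem x))
    exact X.W_cast (by norm_num) this
  have h5 : LinearMap.ker (X.N 3 ^ 3) ≤ X.W 3 5 := by
    intro x hx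
    have := hO.ker_le 3 (by norm_num) hx
    exact X.W_cast (by norm_num) this
  have h6 : (X.W 3 5).map (X.N 3 ^ 2) ≤ X.W 3 1 := by
    rintro _ ⟨x, hx, rfl⟩
    have := hO.pow_map 2 2 x (X.W_cast (by norm_num) hx)
    exact X.W_cast (by norm_num) this
  have h7 := Submodule.finrank_mono h4
  have h8 := Submodule.finrank_mono h5
  have h9 := Submodule.finrank_mono h6
  -- the kernel of `N ^ 2` in `W 5`
  have h10 : finrank Ω (X.W 3 5 ⊓ LinearMap.ker (X.N 3 ^ 2) : Submodule Ω (X.V 3)) ≤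
      finrank Ω (LinearMap.ker (X.N 3 ^ 2)) := Submodule.finrank_mono inf_le_right
  omega

/-- If the Newton polygon of `H^3` lies above the Hodge polygon and `N ^ 2` has rank at least
`2 h^(3, 0)`, then the slopes on the graded piece of weight two of `H^3` are at least one. -/
theorem slope_gr2 (X : Degeneration.{u, v} Ω Γ 3 q) (A : DivisorClasses X.toSpecialFibre)
    (hI : HasIntegralFrobenius X.toSpecialFibre) {R : ValuationSubring Ω} {val : Ω → ℝ}
    (hv : IsValFor q R val) {h : ℕ} (hNH : NewtonAbove val (X.actV 3 X.frob) h)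
    (hrk : 2 * h ≤ rankPow (X.N 3) 2) {α : Ω} {x : X.V 3}
    (hx : x ∈ X.W 3 2) (hx' : x ∉ X.W 3 1) (hα : X.actV 3 X.frob x - α • x ∈ X.W 3 1) :
    α / q ∈ R := by
  have hfin := finite_V X.toSemistableModel 3
  have hq : (q : Ω) ≠ 0 := Nat.cast_ne_zero.2 X.q_ne
  set Φ := X.actV 3 X.frob with hΦ
  have hst : ∀ w, ∀ x ∈ X.W 3 w, Φ x ∈ X.W 3 w := fun w x hx =>
    act_W X.toSemistableModel 3 X.frob w x hx
  -- weight zero
  have hd0 : LinearMap.det (Φ.restrict (hst 0)) ≠ 0 ∧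
      val (LinearMap.det (Φ.restrict (hst 0))) = 0 := by
    apply hv.det_eq_zero
    intro β y hy hyβ
    obtain ⟨k, hk, hk'⟩ := root_W0 X.toSemistableModel hI (β := β) (x := y) y.2
      (fun h0 => hy (Subtype.ext h0)) (congrArg Subtype.val hyβ)
    have hβ : β ≠ 0 := by
      rintro rfl
      rw [zero_pow hk.ne'] at hk'
      exact zero_ne_one hk'
    refine ⟨hβ, ?_⟩
    have h1 := hv.pow hβ k
    rw [hk', hv.one] at h1
    have h2 : (0 : ℝ) < k := Nat.cast_pos.2 hk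
    rcases mul_eq_zero.1 h1.symm with h3 | h3
    · exact absurd h3 h2.ne'
    · exact h3
  -- weight one
  have e1 : ((3 : ℕ) : ℤ) - 1 = 2 := by norm_num
  have hB : ∀ x ∈ X.coboundaries 2 1, X.actC 2 X.frob x ∈ X.coboundaries 2 1 :=
    fun x hx => X.actC_bd 2 1 X.frob hx
  have hZ : ∀ x ∈ X.cocycles 2 1, X.actC 2 X.frob x ∈ X.cocycles 2 1 :=
    fun x hx => zc_stable X.toSemistableModel 2 1 hx
  obtain ⟨e, he⟩ := det_quo_of_graph Φ (X.actC 2 X.frob) (X.sp 3 1) (hst 0) (hst 1) hB hZ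
    (fun p hp => by
      have := X.sp_mem 3 1 p.1 p.2 hp
      rwa [e1] at this)
    (fun v hv => X.sp_left 3 1 v hv)
    (fun x hx => X.sp_right 3 1 x (by rwa [e1]))
    (fun p hp => by
      have := X.sp_ker 3 1 p.1 p.2 hp
      rwa [e1, show (1 : ℤ) - 1 = 0 by norm_num] at this)
    (fun p hp => by
      have := X.sp_act 3 1 p.1 p.2 X.frob hp
      rwa [e1] at this)
  have hdet := det_equiv e he
  have hE2 := det_E2 X.toSpecialFibre A hB hZ
  rw [← hdet, ← e.finrank_eq] at hE2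
  set dq := LinearMap.det (quo Φ (X.W 3 0) (X.W 3 1) (hst 0) (hst 1)) with hdq
  have hdq0 : dq ≠ 0 := by
    intro h0
    rw [h0] at hE2
    exact pow_ne_zero _ hq (by rw [← hE2]; simp)
  have hle01 : X.W 3 0 ≤ X.W 3 1 := X.W_mono 3 (by norm_num)
  have hf := finrank_quo hle01
  have hvq : 2 * val dq = (finrank Ω (X.W 3 1 ⧸ (X.W 3 0).submoduleOf (X.W 3 1)) : ℝ) := by
    have h1 := congrArg val hE2
    rw [hv.pow hdq0, hv.pow hq, hv.norm, mul_one] at h1
    push_cast at h1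
    exact h1
  have h11 := det_restrict_eq Φ hle01 (hst 0) (hst 1)
  rw [← hdq] at h11
  have hd1 : LinearMap.det (Φ.restrict (hst 1)) ≠ 0 := by
    rw [h11]
    exact mul_ne_zero hd0.1 hdq0
  have hv1 : val (LinearMap.det (Φ.restrict (hst 1))) = val dq := by
    rw [h11, hv.mul _ _ hd0.1 hdq0, hd0.2, zero_add]
  -- the subspace `W 1 + x`
  have hU' : ∀ y ∈ X.W 3 1 ⊔ Submodule.span Ω {x}, Φ y ∈ X.W 3 1 ⊔ Submodule.span Ω {x} := by
    intro y hy
    obtain ⟨u, hu, w, hw, rfl⟩ := Submodule.mem_sup.1 hy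
    obtain ⟨c, rfl⟩ := Submodule.mem_span_singleton.1 hw
    have e2 : Φ (u + c • x) = (Φ u + c • (Φ x - α • x)) + (c * α) • x := by
      rw [map_add, map_smul, smul_sub, smul_smul]
      abel
    rw [e2]
    exact Submodule.add_mem_sup (Submodule.add_mem _ (hst 1 u hu) (Submodule.smul_mem _ _ hα))
      (Submodule.mem_span_singleton.2 ⟨_, rfl⟩)
  obtain ⟨hfr, hdl⟩ := det_quo_line Φ (hst 1) hx' hα hU'
  have h12 := det_restrict_eq Φ (le_sup_left : X.W 3 1 ≤ X.W 3 1 ⊔ Submodule.span Ω {x}) (hst 1) hU'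
  rw [hdl] at h12
  have hα0 : α ≠ 0 := by
    apply weil_ne_zero X.q_ne (w := 2)
    exact weil_W X.toSemistableModel 3 2 α x hx hx' hα
  have h13 := hNH _ hU'
  unfold dimOf detOn detEnd restrictTo at h13
  unfold rankPow at hrk
  rw [h12, hv.mul _ _ hd1 hα0, hv1, hfr] at h13
  have h14 := rank_N_sq X A
  have h15 : (2 * h : ℝ) ≤ (finrank Ω (X.W 3 1) : ℝ) + finrank Ω (X.W 3 0) := by
    exact_mod_cast hrk.trans h14
  have h16 : (finrank Ω (X.W 3 1 ⧸ (X.W 3 0).submoduleOf (X.W 3 1)) : ℝ) + finrank Ω (X.W 3 0) =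
      finrank Ω (X.W 3 1) := by exact_mod_cast hf
  have h17 : 1 ≤ val α := by
    push_cast at h13
    linarith
  rw [hv.mem _ (div_ne_zero hα0 hq), div_eq_mul_inv, hv.mul _ _ hα0 (inv_ne_zero hq), hv.inv hq,
    hv.norm]
  linarith

end Pool.Agent.N184.WM
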