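import Pool.Agent.N184.WM.DetVal
import Pool.Agent.N184.WM.Geo
import Pool.Agent.X302.MW.Three

/-!
# Slopes of the graded piece of weight two of `H^3` of a threefold
-/

namespace Pool.Agent.N184.WM

universe u v

open Module Submodule Pool.Agent.Y143 Pool.Agent.X302.MW

variable {Ω : Type u} [Field Ω] [CharZero Ω] {Γ : Type} {n q : ℕ}

section general

variable (X : SemistableModel.{u, v} Ω Γ n q)

lemma E₁_bot_of_neg {r w : ℤ} (hw : w < 0) {x : X.C} (hx : x ∈ X.E₁ r w) : x = 0 := by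
  funext a
  by_cases hc : InColumn r a
  · have h1 := (hx a).1
    have h2 := hc.1
    have h3 := le_abs_self r
    rw [X.gr_eq_bot a _ (Or.inl (by omega)), Submodule.mem_bot] at h1
    exact h1
  · exact (hx a).2 hc

lemma E₁_bot_of_gt {r w : ℤ} (hr : (n : ℤ) < |r|) {x : X.C} (hx : x ∈ X.E₁ r w) : x = 0 := by
  funext a
  by_cases hc : InColumn r a
  · have h2 := hc.1
    exact X.eq_zero_of_lt (by omega) _
  · exact (hx a).2 hc

lemma W_step {k : ℕ} {w : ℤ} (h : ∀ x ∈ X.cocycles (k - w) w, x = 0) :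
    X.W k w = X.W k (w - 1) := by
  apply le_antisymm
  · intro v hv
    obtain ⟨x, hx⟩ := X.sp_left k w v hv
    apply (X.sp_ker k w v x hx).2
    rw [h x (X.sp_mem k w v x hx).2]
    exact zero_mem _
  · exact X.W_mono k (by omega)

lemma W_neg (k : ℕ) {w : ℤ} (hw : w < 0) : X.W k w = ⊥ := by
  obtain ⟨b, hb⟩ := X.W_bot k
  have key : ∀ t : ℕ, ∀ w : ℤ, w < 0 → w ≤ b + t → X.W k w = ⊥ := by
    intro t
    induction t with
    | zero =>
      intro w _ hw
      rw [eq_bot_iff, ← hb]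
      exact X.W_mono k (by simpa using hw)
    | succ t ih =>
      intro w hw0 hw
      rw [W_step X (fun x hx => E₁_bot_of_neg X hw0 hx.1)]
      exact ih _ (by omega) (by push_cast at hw; omega)
  exact key (w - b).toNat w hw (by have := Int.self_le_toNat (w - b); omega)

lemma W_big (k : ℕ) {w : ℤ} (hw : (k : ℤ) + n ≤ w) : X.W k w = ⊤ := by
  obtain ⟨b, hb⟩ := X.W_top k
  have key : ∀ t : ℕ, ∀ w : ℤ, (k : ℤ) + n ≤ w → b - t ≤ w → X.W k w = ⊤ := by
    intro t
    induction t with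
    | zero =>
      intro w _ hw
      rw [eq_top_iff, ← hb]
      exact X.W_mono k (by simpa using hw)
    | succ t ih =>
      intro w hw0 hw
      have h1 := ih (w + 1) (by omega) (by push_cast at hw; omega)
      rw [W_step X (fun x hx => E₁_bot_of_gt X (r := k - (w + 1)) (by
        rw [abs_of_nonpos (by omega)]
        omega) hx.1), show w + 1 - 1 = w by ring] at h1
      exact h1
  exact key (b - w).toNat w hw (by have := Int.self_le_toNat (b - w); omega)

end general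

section weight_zero

variable [IsAlgClosed Ω] (X : SemistableModel.{u, v} Ω Γ 3 q)

/-- The eigenvalues on the part of weight zero of `H^3` are roots of unity. -/
lemma root_W0 (hI : HasIntegralFrobenius X.toSpecialFibre) {β : Ω} {x : X.V 3}
    (hx : x ∈ X.W 3 0) (hx0 : x ≠ 0) (h : X.actV 3 X.frob x = β • x) :
    ∃ k : ℕ, 0 < k ∧ β ^ k = 1 := by
  obtain ⟨y, hy⟩ := X.sp_left 3 0 x hx
  have h1 := (X.sp_mem 3 0 _ _ hy).2
  have h2 : y ∉ X.coboundaries ((3 : ℕ) - 0) 0 := by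
    intro hc
    have h3 := (X.sp_ker 3 0 _ _ hy).2 hc
    rw [W_neg X 3 (show (0 : ℤ) - 1 < 0 by norm_num), Submodule.mem_bot] at h3
    exact hx0 h3
  have h3 : (X.actV 3 X.frob x - β • x, X.actC ((3 : ℕ) - 0) X.frob y - β • y) ∈ X.sp 3 0 :=
    Submodule.sub_mem _ (X.sp_act 3 _ x y X.frob hy) (Submodule.smul_mem _ β hy)
  have h5 : X.actC ((3 : ℕ) - 0) X.frob y - β • y ∈ X.coboundaries ((3 : ℕ) - 0) 0 := by
    apply (X.sp_ker 3 0 _ _ h3).1
    rw [h, sub_self]
    exact zero_mem _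
  obtain ⟨z, hz, hz0, hzβ⟩ := exists_eigen (S := X.actC ((3 : ℕ) - 0) X.frob)
    (X.bd_le_zc _ _) (fun x hx => X.actC_bd _ _ _ hx) h1 h2 h5
  have hzE := hz.1
  have hw := X.weil_E₁ hzE hz0 hzβ
  -- the component in degree `3`
  have hcomp : ∀ a, a ≠ 3 → z a = 0 := by
    intro a ha
    by_cases hc : InColumn ((3 : ℕ) - 0) a
    · have h6 := hc.1
      have h7 : 3 ≤ a := by
        rw [sub_zero, Nat.abs_cast] at h6
        exact_mod_cast h6
      exact X.eq_zero_of_lt (by omega) _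
    · exact (hzE a).2 hc
  have hz3 : z 3 ≠ 0 := by
    intro hc
    apply hz0
    funext a
    by_cases ha : a = 3
    · subst ha
      exact hc
    · exact hcomp a ha
  have hact : X.act 3 X.frob (z 3) = β • z 3 := by
    have h6 := congrFun hzβ 3
    rw [X.actC_apply, show (((3 : ℕ) : ℤ) - (((3 : ℕ) : ℤ) - 0)) / 2 = 0 by norm_num, zpow_zero,
      Units.val_one, one_smul] at h6
    exact h6
  have hint := hI 3 0 β (z 3) (by
    have := (hzE 3).1
    rwa [show (0 : ℤ) + (((3 : ℕ) : ℤ) - 0) - ((3 : ℕ) : ℤ) = 0 by norm_num] at this) hz3 hact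
  exact root_of_unity hint fun t ht => by
    have := hw.2 t ht
    rwa [Int.cast_zero, zero_div, Real.rpow_zero] at this

end weight_zero

section weight_one

variable (X : SpecialFibre.{u, v} Ω Γ 3 q)

/-- The form on `E_1^(2, 1) = H^1(Y^(3))`. -/
noncomputable def form21 : X.C →ₗ[Ω] X.C →ₗ[Ω] Ω :=
  (X.pair 2).compl₁₂ (LinearMap.proj 2) (LinearMap.proj 2)

lemma form21_apply (x y : X.C) : form21 X x y = X.pair 2 (x 2) (y 2) := rfl

lemma form21_act (x y : X.C) :
    form21 X (X.actC 2 X.frob x) (X.actC 2 X.frob y) = (q : Ω) * form21 X x y := by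
  rw [form21_apply, form21_apply, X.actC_apply, X.actC_apply,
    show (((2 : ℕ) : ℤ) - 2) / 2 = 0 by norm_num, zpow_zero, Units.val_one, one_smul, one_smul,
    X.act_pair, X.frob_inv]
  rw [show ((3 : ℕ) : ℤ) - ((2 : ℕ) : ℤ) = 1 by norm_num, zpow_one, X.cyc_frob]

lemma eq_of_comp {x : X.C} (hx : x ∈ X.E₁ 2 1) (h : x 2 = 0) : x = 0 := by
  funext a
  by_cases hc : InColumn 2 a
  · obtain ⟨h1, h2⟩ := hc
    have h3 : 2 ≤ a := by
      rw [show |(2 : ℤ)| = 2 by norm_num] at h1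
      exact_mod_cast h1
    by_cases ha : a = 2
    · subst ha
      exact h
    · exact X.eq_zero_of_lt (by omega) _
  · exact (hx a).2 hc

lemma comp_mem {x : X.C} (hx : x ∈ X.E₁ 2 1) : x 2 ∈ X.gr 2 1 := by
  have := (hx 2).1
  rwa [show (1 : ℤ) + 2 - ((2 : ℕ) : ℤ) = 1 by norm_num] at this

/-- The determinant of the Frobenius on a stable subspace on which the form is nondegenerate. -/
lemma det_form21 (U : Submodule Ω X.C) (hU : ∀ x ∈ U, X.actC 2 X.frob x ∈ U)
    (hB : ∀ x ∈ U, (∀ y ∈ U, form21 X x y = 0) → x = 0) :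
    LinearMap.det ((X.actC 2 X.frob).restrict hU) ^ 2 = (q : Ω) ^ finrank Ω U := by
  apply det_sq_of_form _ ((form21 X).compl₁₂ U.subtype U.subtype)
  · intro x hx
    apply Subtype.ext
    exact hB x x.2 (fun y hy => hx ⟨y, hy⟩)
  · intro x y
    exact form21_act X x y

lemma cocycles21 : X.cocycles 2 1 = X.E₁ 2 1 := by
  apply le_antisymm inf_le_left
  intro x hx
  refine ⟨hx, ?_⟩
  rw [SetLike.mem_coe, LinearMap.mem_ker]
  have h1 := X.diff_mem hx
  funext a
  by_cases hc : InColumn (2 + 1) a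
  · have h2 := hc.1
    have h3 : 3 ≤ a := by
      rw [show |(2 : ℤ) + 1| = 3 by norm_num] at h2
      exact_mod_cast h2
    by_cases ha : a = 3
    · subst ha
      have h4 := (h1 3).1
      rw [show (1 : ℤ) + (2 + 1) - ((3 : ℕ) : ℤ) = 1 by norm_num,
        X.gr_eq_bot 3 1 (Or.inr (by norm_num)), Submodule.mem_bot] at h4
      exact h4
    · exact X.eq_zero_of_lt (by omega) _
  · exact (h1 a).2 hc

lemma nondeg_E21 : ∀ x ∈ X.E₁ 2 1, (∀ y ∈ X.E₁ 2 1, form21 X x y = 0) → x = 0 := by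
  classical
  intro x hx h
  apply eq_of_comp X hx
  apply X.pair_nondeg
  intro y
  refine X.gr_induction (P := fun y => X.pair 2 (x 2) y = 0) (by simp)
    (fun y z hy hz => by rw [map_add, hy, hz, add_zero]) (fun m y hy => ?_) y
  by_cases hm : m = 1
  · subst hm
    have hc : InColumn 2 2 := ⟨by norm_num, ⟨0, by norm_num⟩⟩
    have h2 : (Pi.single 2 y : X.C) ∈ X.E₁ 2 1 := by
      apply X.single_mem hc
      rwa [show (1 : ℤ) + 2 - ((2 : ℕ) : ℤ) = 1 by norm_num]
    have h3 := h _ h2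
    rw [form21_apply, Pi.single_eq_same] at h3
    exact h3
  · exact X.pair_gr 2 1 m _ _ (comp_mem X hx) hy (by norm_num; omega)

lemma nondeg_B21 (A : DivisorClasses X) :
    ∀ x ∈ X.coboundaries 2 1, (∀ y ∈ X.coboundaries 2 1, form21 X x y = 0) → x = 0 := by
  classical
  have hcomp : ∀ y ∈ X.E₁ (2 - 1) 1, y 1 ∈ X.gr 1 1 ∧ (X.diff (2 - 1) y) 2 = X.res 1 (y 1) := by
    intro y hy
    have h1 := (hy 1).1
    rw [show (1 : ℤ) + (2 - 1) - ((1 : ℕ) : ℤ) = 1 by norm_num] at h1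
    refine ⟨h1, ?_⟩
    have hc : InColumn (2 - 1 + 1) 2 := ⟨by norm_num, ⟨0, by norm_num⟩⟩
    rw [X.diff_apply, X.cut_of hc, Pi.add_apply, X.resC_succ, X.gysC_apply]
    have h3 : y (2 + 1) = 0 := by
      have h4 := (hy 3).1
      rw [show (1 : ℤ) + (2 - 1) - ((3 : ℕ) : ℤ) = -1 by norm_num,
        X.gr_eq_bot 3 (-1) (Or.inl (by norm_num)), Submodule.mem_bot] at h4
      exact h4
    rw [h3, map_zero, add_zero]
  rintro _ ⟨y, hy, rfl⟩ h
  have hE : X.diff (2 - 1) y ∈ X.E₁ 2 1 := by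
    have := X.diff_mem hy
    rwa [show (2 : ℤ) - 1 + 1 = 2 by norm_num] at this
  apply eq_of_comp X hE
  rw [(hcomp y hy).2]
  apply A.weil_one 1 (y 1) (hcomp y hy).1
  intro u hu
  have hc1 : InColumn (2 - 1) 1 := ⟨by norm_num, ⟨0, by norm_num⟩⟩
  have h2 : (Pi.single 1 u : X.C) ∈ X.E₁ (2 - 1) 1 := by
    apply X.single_mem hc1
    rwa [show (1 : ℤ) + (2 - 1) - ((1 : ℕ) : ℤ) = 1 by norm_num]
  have h3 := h _ ⟨_, h2, rfl⟩
  rw [form21_apply, (hcomp y hy).2, (hcomp _ h2).2, Pi.single_eq_same] at h3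
  simpa using h3

/-- The square of the determinant of the Frobenius on `E_2^(2, 1)`. -/
lemma det_E2 (A : DivisorClasses X)
    (hB : ∀ x ∈ X.coboundaries 2 1, X.actC 2 X.frob x ∈ X.coboundaries 2 1)
    (hZ : ∀ x ∈ X.cocycles 2 1, X.actC 2 X.frob x ∈ X.cocycles 2 1) :
    LinearMap.det (quo (X.actC 2 X.frob) (X.coboundaries 2 1) (X.cocycles 2 1) hB hZ) ^ 2 =
      (q : Ω) ^ finrank Ω (X.cocycles 2 1 ⧸ (X.coboundaries 2 1).submoduleOf (X.cocycles 2 1)) := by
  have hq : (q : Ω) ≠ 0 := Nat.cast_ne_zero.2 X.q_ne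
  have hle : X.coboundaries 2 1 ≤ X.cocycles 2 1 := X.bd_le_zc 2 1
  have h1 := det_form21 X _ hB (nondeg_B21 X A)
  have h2 := det_form21 X _ hZ (by
    rw [cocycles21]
    exact nondeg_E21 X)
  have h3 := det_restrict_eq (X.actC 2 X.frob) hle hB hZ
  have h4 := finrank_quo hle
  rw [h3, mul_pow, h1, ← h4, pow_add, mul_comm ((q : Ω) ^ finrank Ω (X.coboundaries 2 1))] at h2
  exact mul_right_cancel₀ (pow_ne_zero _ hq) h2

end weight_one

end Pool.Agent.N184.WM
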