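import Pool.Agent.N184.WM.SlopeGr

/-!
# Threefolds whose `N ^ 2` has maximal rank on `H^3`
-/

namespace Pool.Agent.N184.WM

universe u v

open Module Submodule Pool.Agent.Y143 Pool.Agent.X302.MW

variable {Ω : Type u} [Field Ω] [CharZero Ω] {Γ : Type} {n q : ℕ}

/-- An eigenvalue on the `E_2` term is an eigenvalue on the graded piece of the cohomology of the
generic fibre. -/
lemma eigen_generic2 (X : SemistableModel.{u, v} Ω Γ n q) (k : ℕ) (w : ℤ) {α : Ω} {x : X.C}
    (hx : x ∈ X.cocycles (k - w) w) (hxB : x ∉ X.coboundaries (k - w) w)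
    (h : X.actC (k - w) X.frob x - α • x ∈ X.coboundaries (k - w) w) :
    ∃ v : X.V k, v ∈ X.W k w ∧ v ∉ X.W k (w - 1) ∧
      X.actV k X.frob v - α • v ∈ X.W k (w - 1) := by
  obtain ⟨v, hv⟩ := X.sp_right k w x hx
  refine ⟨v, (X.sp_mem k w v x hv).1, fun hc => hxB ((X.sp_ker k w v x hv).1 hc), ?_⟩
  have h1 : (X.actV k X.frob v - α • v, X.actC (k - w) X.frob x - α • x) ∈ X.sp k w :=
    Submodule.sub_mem _ (X.sp_act k w v x X.frob hv) (Submodule.smul_mem _ α hv)
  exact (X.sp_ker k w _ _ h1).2 h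

section loc

variable [IsAlgClosed Ω] (X : SemistableModel.{u, v} Ω Γ n q)

/-- If the slopes of `H^3` of the generic fibre are at least one, then the restriction is
surjective on the part of `H^2` of the double surfaces of slope less than one. -/
lemma res_surj2 (hn : n = 3) (hI : HasIntegralFrobenius X.toSpecialFibre) (R : ValuationSubring Ω)
    (h3 : ∀ (α : Ω) (x : X.V 3), x ∈ X.W 3 2 → x ∉ X.W 3 1 →
      X.actV 3 X.frob x - α • x ∈ X.W 3 1 → α / q ∈ R) {α : Ω} (hα : α / q ∉ R)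
    {z : X.H 1} (hz : z ∈ frobPart X.toSpecialFibre 1 2 α) :
    ∃ y ∈ frobPart X.toSpecialFibre 0 2 α, X.res 0 y = z := by
  classical
  have hα' : (q : Ω)⁻¹ * α ∉ R := by rwa [← div_eq_inv_mul]
  have hcol : InColumn 1 1 := ⟨by simp, ⟨0, by simp⟩⟩
  have hxE : (Pi.single 1 z : X.C) ∈ X.E₁ 1 2 := by
    apply X.single_mem hcol
    simpa using hz.1
  have hres : X.res 1 z = 0 := by
    by_contra hne
    exact hα' (mem_of_int R (h2_curve X.toSpecialFibre hn hI
      (res_frobPart X.toSpecialFibre 1 2 hz) hne))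
  have hxc : (Pi.single 1 z : X.C) ∈ X.cocycles 1 2 := by
    refine ⟨hxE, ?_⟩
    rw [SetLike.mem_coe, LinearMap.mem_ker]
    funext b
    rw [X.diff_apply]
    by_cases hc : InColumn (1 + 1) b
    · have hc1 := hc.1
      rw [show |(1 : ℤ) + 1| = 2 by norm_num] at hc1
      rw [X.cut_of hc, Pi.add_apply, X.gysC_apply, Pi.single_eq_of_ne (by omega), map_zero,
        add_zero]
      cases b with
      | zero => rfl
      | succ b =>
        rw [X.resC_succ]
        by_cases hb : b = 1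
        · subst hb
          rw [Pi.single_eq_same, hres]
          rfl
        · rw [Pi.single_eq_of_ne hb, map_zero]
          rfl
    · rw [X.cut_of_not hc]
      rfl
  have hgen := single_gen X.toSpecialFibre 1 1 rfl hz.2
  by_cases hb : (Pi.single 1 z : X.C) ∈ X.coboundaries 1 2
  · obtain ⟨v, hvE, hvg, hv⟩ := cob_gen X.toSpecialFibre 1 2 hgen hb
    rw [show (1 : ℤ) - 1 = 0 by norm_num] at hvE hvg hv
    have hv2 : v 2 = 0 := by
      by_contra hne
      have h4 := comp_gen X.toSpecialFibre 0 hvg 2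
      rw [show (((2 : ℕ) : ℤ) - 0) / 2 = 1 by norm_num, zpow_one] at h4
      have h5 := (hvE 2).1
      rw [show (2 : ℤ) + 0 - ((2 : ℕ) : ℤ) = 0 by norm_num] at h5
      exact hα' (mem_of_int R (h0_root X.toSpecialFibre hI 2 ⟨h5, h4⟩ hne).1)
    refine ⟨v 0, ⟨?_, ?_⟩, ?_⟩
    · have h5 := (hvE 0).1
      rwa [show (2 : ℤ) + 0 - ((0 : ℕ) : ℤ) = 2 by norm_num] at h5
    · have h4 := comp_gen X.toSpecialFibre 0 hvg 0
      rwa [show (((0 : ℕ) : ℤ) - 0) / 2 = 0 by norm_num, zpow_zero, inv_one, one_mul] at h4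
    · have h6 := congrFun hv 1
      rw [Pi.single_eq_same, X.diff_apply, X.cut_of (by simpa using hcol), Pi.add_apply,
        X.gysC_apply] at h6
      have h7 : X.gys 1 (v (1 + 1)) = 0 := by
        have : v (1 + 1) = 0 := hv2
        rw [this, map_zero]
      rw [h7, add_zero] at h6
      exact h6
  · exfalso
    obtain ⟨x', hx', hxB', hx''⟩ := exists_eigen_mod (X.actC 1 X.frob) α (Z := X.cocycles 1 2)
      (fun x hx => zc_stable X 1 2 hx) hxc hb hgen
    have e : ((3 : ℕ) : ℤ) - 2 = 1 := by norm_num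
    apply hα
    obtain ⟨v, h6, h7, h8⟩ := eigen_generic2 X 3 2 (x := x') (by rw [e]; exact hx')
      (by rw [e]; exact hxB') (by rw [e]; exact hx'')
    exact h3 α v h6 h7 h8

end loc

section final

variable [IsAlgClosed Ω] {Ω' : Type u} [Field Ω'] [CharZero Ω'] [IsAlgClosed Ω'] {Γ' : Type}

/-- The bijectivity of the restriction on the non-Tate part, from the comparison of two theories. -/
theorem surj_of_compare2 (X : SemistableModel.{u, v} Ω Γ n q) (X' : SemistableModel.{u, v} Ω' Γ' n q)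
    (hn : n = 3) (hq : IsPrimePow q)
    (hI : HasIntegralFrobenius X.toSpecialFibre) (hI' : HasIntegralFrobenius X'.toSpecialFibre)
    (hC0 : SameFrobenius X.toSpecialFibre X'.toSpecialFibre 0 2)
    (hC1 : SameFrobenius X.toSpecialFibre X'.toSpecialFibre 1 2)
    (R : ValuationSubring Ω') (hR : ((q : Ω'))⁻¹ ∉ R)
    (h2 : SameOnH2 X.toSpecialFibre X'.toSpecialFibre)
    (h3 : ∀ (α : Ω') (x : X'.V 3), x ∈ X'.W 3 2 → x ∉ X'.W 3 1 →
      X'.actV 3 X'.frob x - α • x ∈ X'.W 3 1 → α / q ∈ R)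
    (α : Ω) (hα : ¬ IsTateNumber q α) (z : X.H 1) (hz : z ∈ frobPart X.toSpecialFibre 1 2 α) :
    ∃ y ∈ frobPart X.toSpecialFibre 0 2 α, X.res 0 y = z := by
  by_cases hz0 : z = 0
  · exact ⟨0, Submodule.zero_mem _, by rw [hz0, map_zero]⟩
  obtain ⟨y, hy, hy0, hyα⟩ := exists_eigen_gr X.toSpecialFibre 1 2 hz hz0
  have hint := hI 1 2 α y hy hy0 hyα
  have hw := X.weil 1 2 α y hy hy0 hyα
  -- a conjugate of slope less than one
  obtain ⟨α', hα', hαR⟩ : ∃ α' : Ω', Polynomial.aeval α' (minpoly ℚ α) = 0 ∧ α' / q ∉ R := by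
    by_contra hcon
    push Not at hcon
    exact hα (tate_of_val hq R hR hint hw hcon)
  have hconj : AreConjugate α α' := by
    have halg : IsAlgebraic ℚ α := hw.1
    refine ⟨halg, ?_, ?_⟩
    · exact ⟨minpoly ℚ α, minpoly.ne_zero halg.isIntegral, hα'⟩
    · exact minpoly.eq_of_irreducible_of_monic (minpoly.irreducible halg.isIntegral) hα'
        (minpoly.monic halg.isIntegral)
  -- the comparison of the dimensions
  have hk1 := finrank_map_add_ker (X.res 0) (frobPart X.toSpecialFibre 0 2 α)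
  have hk2 := finrank_map_add_ker (X'.res 0) (frobPart X'.toSpecialFibre 0 2 α')
  have hk3 : finrank Ω (frobPart X.toSpecialFibre 0 2 α ⊓ LinearMap.ker (X.res 0) :
      Submodule Ω (X.H 0)) = finrank Ω' (frobPart X'.toSpecialFibre 0 2 α' ⊓
      LinearMap.ker (X'.res 0) : Submodule Ω' (X'.H 0)) := h2 α α' hconj hα
  have hle : finrank Ω (frobPart X.toSpecialFibre 1 2 α) ≤
      finrank Ω ((frobPart X.toSpecialFibre 0 2 α).map (X.res 0)) := by
    have h4 : frobPart X'.toSpecialFibre 1 2 α' ≤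
        (frobPart X'.toSpecialFibre 0 2 α').map (X'.res 0) := by
      intro z' hz'
      obtain ⟨y', hy', hyz'⟩ := res_surj2 X' hn hI' R h3 hαR hz'
      exact ⟨y', hy', hyz'⟩
    have h5 := Submodule.finrank_mono h4
    have h6 := hC0 α α' hconj
    have h7 := hC1 α α' hconj
    rw [h7]
    refine h5.trans (le_of_eq ?_)
    have h8 : finrank Ω' ((frobPart X'.toSpecialFibre 0 2 α').map (X'.res 0)) +
        finrank Ω (kerPart X.toSpecialFibre α) =
        finrank Ω ((frobPart X.toSpecialFibre 0 2 α).map (X.res 0)) +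
        finrank Ω (kerPart X.toSpecialFibre α) := by
      rw [h2 α α' hconj hα]
      conv_rhs => rw [← h2 α α' hconj hα]
      exact hk2.trans (h6.symm.trans hk1.symm)
    exact Nat.add_right_cancel h8
  have hmap : (frobPart X.toSpecialFibre 0 2 α).map (X.res 0) ≤
      frobPart X.toSpecialFibre 1 2 α := by
    rintro _ ⟨y', hy', rfl⟩
    exact res_frobPart X.toSpecialFibre 0 2 hy'
  have hfull := Submodule.eq_of_le_of_finrank_le hmap hle
  rw [← hfull] at hz
  obtain ⟨y', hy', hyz'⟩ := hz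
  exact ⟨y', hy', hyz'⟩

/-- **Threefolds whose `N ^ 2` has maximal rank.** -/
theorem mw_three_max (X : Degeneration.{u, v} Ω Γ 3 q) (A : DivisorClasses X.toSpecialFibre)
    (X' : Degeneration.{u, v} Ω' Γ' 3 q) (A' : DivisorClasses X'.toSpecialFibre)
    (hq : IsPrimePow q)
    (hI : HasIntegralFrobenius X.toSpecialFibre) (hI' : HasIntegralFrobenius X'.toSpecialFibre)
    (hC0 : SameFrobenius X.toSpecialFibre X'.toSpecialFibre 0 2)
    (hC1 : SameFrobenius X.toSpecialFibre X'.toSpecialFibre 1 2)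
    (h2 : SameOnH2 X.toSpecialFibre X'.toSpecialFibre) (R : ValuationSubring Ω') (val : Ω' → ℝ)
    (hv : IsValFor q R val) (h : ℕ) (hNH : NewtonAbove val (X'.actV 3 X'.frob) h)
    (hrk : 2 * h ≤ rankPow (X'.N 3) 2) (hT : A.TateConj 0) (k : ℕ) :
    IsMWPure q k (X.actV k X.frob) (X.N k) := by
  have hR : ((q : Ω'))⁻¹ ∉ R := by
    have hq0 : (q : Ω') ≠ 0 := Nat.cast_ne_zero.2 X'.q_ne
    rw [hv.mem _ (inv_ne_zero hq0), hv.inv hq0, hv.norm]
    norm_num
  exact mw_three X rfl hI A hT (fun α hα z hz => surj_of_compare2 X.toSemistableModel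
    X'.toSemistableModel rfl hq hI hI' hC0 hC1 R hR h2
    (fun α x h1 h2 h3 => slope_gr2 X' A' hI' hv hNH hrk h1 h2 h3) α hα z hz) k

end final

end Pool.Agent.N184.WM
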